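import Pool.Agent.Lib.MP_59b239_al.CT.Spec
import Pool.Agent.Lib.MP_59b239_al.CJ.ZFR

section
/-!
# Module PR2: bounded search for a conjugator
-/
namespace Pool.Agent.Lib.MP59b239.CT

open Pool.Agent.Lib.MP59b239.CJ

namespace PR2M

theorem primrec_pow : Primrec₂ ((· ^ ·) : ℕ → ℕ → ℕ) :=
  Primrec₂.unpaired'.1 Nat.Primrec.pow

/-- The bound for the length of the conjugators is primitive recursive. -/
theorem primrec_bound {n : ℕ} (K : ℕ) :
    Primrec fun p : ℕ × List (Let n) × List (Let n) =>
      K ^ (K ^ ((p.1 + 1) * (p.2.1.length + p.2.2.length + 1))) := by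
  have h1 : Primrec fun p : ℕ × List (Let n) × List (Let n) =>
      (p.1 + 1) * (p.2.1.length + p.2.2.length + 1) :=
    Primrec.nat_mul.comp (Primrec.succ.comp Primrec.fst)
      (Primrec.succ.comp (Primrec.nat_add.comp
        (Primrec.list_length.comp (Primrec.fst.comp Primrec.snd))
        (Primrec.list_length.comp (Primrec.snd.comp Primrec.snd))))
  exact primrec_pow.comp (Primrec.const K) (primrec_pow.comp (Primrec.const K) h1)

end PR2M

open CPCM in
theorem specPR2 (hWRD : SpecWRD) (hANY : SpecANY) : SpecPR2 := by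
  intro G _ n gen hwp K
  obtain ⟨W, hW, hWm⟩ := hWRD n
  obtain ⟨f, hf, hfe⟩ := ComputablePred.computable_iff.mp hwp
  have key := hANY (ℕ × List (Let n) × List (Let n)) (List (Let n))
    (fun p => W (K ^ (K ^ ((p.1 + 1) * (p.2.1.length + p.2.2.length + 1)))))
    (fun z => ev gen (inv z.2 ++ (z.1.2.1 ++ (z.2 ++ inv z.1.2.2))) = 1)
    (hW.comp (PR2M.primrec_bound K).to_comp)
    (ComputablePred.computable_iff.mpr
      ⟨fun z => f (inv z.2 ++ (z.1.2.1 ++ (z.2 ++ inv z.1.2.2))),
      hf.comp ((primrec_word (n := n)).comp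
        (Primrec.pair (Primrec.snd.comp Primrec.fst) Primrec.snd)).to_comp, by
        funext z
        exact congrFun hfe _⟩)
  obtain ⟨F, hF, hFe⟩ := ComputablePred.computable_iff.mp key
  refine ⟨F, hF, fun E p q => ?_⟩
  have h1 : (∃ v ∈ W (K ^ (K ^ ((E + 1) * (p.length + q.length + 1)))),
      ev gen (inv v ++ (p ++ (v ++ inv q))) = 1) ↔ F (E, p, q) = true := by
    have := congrFun hFe (E, p, q)
    exact Iff.of_eq this
  rw [← h1]
  constructor
  · rintro ⟨v, hv, he⟩
    refine ⟨v, (hWm _ _).mp hv, ?_⟩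
    rw [ev_append, ev_append, ev_append, ev_inv, ev_inv] at he
    have : (ev gen v)⁻¹ * (ev gen p * (ev gen v * (ev gen q)⁻¹)) * ev gen q =
      1 * ev gen q := by rw [he]
    simpa [mul_assoc] using this
  · rintro ⟨v, hv, he⟩
    refine ⟨v, (hWm _ _).mpr hv, ?_⟩
    rw [ev_append, ev_append, ev_append, ev_inv, ev_inv, ← he]
    group

end Pool.Agent.Lib.MP59b239.CT
end

section
/-! # RCH: the chain between multiples of two loops -/
namespace Pool.Agent.Lib.MP59b239.CT

open Pool.Agent.Lib.MP59b239.CJ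

namespace RCHM

/-- the power of a word -/
def pw {n : ℕ} (w : List (Let n)) : ℕ → List (Let n)
  | 0 => []
  | N + 1 => w ++ pw w N

theorem length_pw {n : ℕ} (w : List (Let n)) (N : ℕ) : (pw w N).length = N * w.length := by
  induction N with
  | zero => simp [pw]
  | succ N ih => rw [pw, List.length_append, ih]; ring

theorem ev_pw {G : Type} [Group G] {n : ℕ} (gen : Fin n → G) (w : List (Let n)) (N : ℕ) :
    ev gen (pw w N) = ev gen w ^ N := by
  induction N with
  | zero => simp [pw]
  | succ N ih => rw [pw, ev_append, ih, pow_succ']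

section

variable {V : Type} {n : ℕ} (σ : Fin n → Equiv.Perm V)

theorem wlk_pw (a : V) (w : List (Let n)) (h : wlk σ a w = a) (N : ℕ) :
    wlk σ a (pw w N) = a := by
  induction N with
  | zero => rfl
  | succ N ih => rw [pw, wlk_append, h, ih]

theorem chn_pw (a : V) (w : List (Let n)) (h : wlk σ a w = a) (N : ℕ) :
    chn σ a (pw w N) = (N : ℤ) • chn σ a w := by
  induction N with
  | zero => simp [pw, chn]
  | succ N ih =>
    rw [pw, chn_append, h, ih]
    push_cast
    rw [add_smul, one_smul]; abel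

end

theorem mul_pow_eq {G : Type} [Group G] (g y a : G) (k : ℕ) (h : y * a = g ^ k * y) (s : ℕ) :
    y * a ^ s = g ^ (k * s) * y := by
  induction s with
  | zero => simp
  | succ s ih =>
    rw [pow_succ', ← mul_assoc, h, mul_assoc, ih, ← mul_assoc, ← pow_add]
    congr 2
    ring

end RCHM

open RCHM in
theorem specRCH : SpecRCH := by
  intro G _ n m gen rel C ρ E g X K₀ k k' y V w w' hK hk hk' hdk hdk' hw hw'
  set z : G := y * ev gen V with hz
  set U : ℕ → ℕ → List (Let n) := fun s s' => pw w s ++ V ++ pw (inv w') s' ++ inv V with hU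
  have hw2 : y * ev gen w = g ^ (k : ℤ) * y := by rw [hw, zpow_natCast]
  have hw2' : z * ev gen w' = g ^ (k' : ℤ) * z := by rw [hw', zpow_natCast]
  have hev : ∀ s s', k * s = k' * s' → ev gen (U s s') = 1 := by
    intro s s' hs
    have h1 : y * ev gen w ^ s = g ^ (k * s) * y := mul_pow_eq g y _ k hw s
    have h2 : z * ev gen w' ^ s' = g ^ (k' * s') * z := mul_pow_eq g z _ k' hw' s'
    have h3 : y * ev gen (U s s') = y * 1 := by
      simp only [hU, ev_append, ev_inv, ev_pw, inv_pow]
      calc y * (ev gen w ^ s * ev gen V * (ev gen w' ^ s')⁻¹ * (ev gen V)⁻¹)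
          = (y * ev gen w ^ s) * ev gen V * (ev gen w' ^ s')⁻¹ * (ev gen V)⁻¹ := by group
        _ = g ^ (k * s) * (y * ev gen V) * (ev gen w' ^ s')⁻¹ * (ev gen V)⁻¹ := by
            rw [h1]; group
        _ = (z * ev gen w' ^ s') * (ev gen w' ^ s')⁻¹ * (ev gen V)⁻¹ := by
            rw [hs, h2]
        _ = y * 1 := by rw [hz]; group
    exact mul_left_cancel h3
  have hlen : ∀ s s', (U s s').length = s * w.length + s' * w'.length + 2 * V.length := by
    intro s s'
    simp only [hU, List.length_append, length_pw, length_inv]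
    ring
  have hlp : wlk X.σ (X.π y) w = X.π y := X.wlk_loop y w k hw2
  have hlq : wlk X.σ (X.π z) w' = X.π z := X.wlk_loop z w' k' hw2'
  have hlq' : wlk X.σ (X.π z) (inv w') = X.π z := by
    have := wlk_inv X.σ (X.π z) w'
    rwa [hlq] at this
  have hcq : chn X.σ (X.π z) (inv w') = -chn X.σ (X.π z) w' := by
    have := chn_inv X.σ (X.π z) w'
    rwa [hlq] at this
  have hv1 : wlk X.σ (X.π y) V = X.π z := by rw [X.toQD.wlk]
  have hchU : ∀ s s' : ℕ, chn X.σ (X.π y) (U s s') =
      (s : ℤ) • chn X.σ (X.π y) w - (s' : ℤ) • chn X.σ (X.π z) w' := by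
    intro s s'
    have hcv : chn X.σ (X.π z) (inv V) = -chn X.σ (X.π y) V := by
      have := chn_inv X.σ (X.π y) V
      rwa [hv1] at this
    simp only [hU, chn_append, wlk_append]
    rw [wlk_pw X.σ _ _ hlp, hv1, wlk_pw X.σ _ _ hlq', chn_pw X.σ _ _ hlp,
      chn_pw X.σ _ _ hlq', hcq, hcv, smul_neg]
    abel
  have hfill : ∀ s s' : ℕ, k * s = k' * s' → ∃ c : X.Q × Fin m →₀ ℤ,
      bd2 X.σ rel c = (s : ℤ) • chn X.σ (X.π y) w - (s' : ℤ) • chn X.σ (X.π z) w' ∧
      nrm c ≤ C * (s * w.length + s' * w'.length + 2 * V.length + 1) ^ 2 := by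
    intro s s' hs
    obtain ⟨c, hb, hn⟩ := X.iso (U s s') (hev s s' hs)
    refine ⟨mp X.π m (mp (fun x => y * x) m c), ?_,
      ((nrm_mp_le _ _ _).trans (nrm_mp_le _ _ _)).trans ?_⟩
    · rw [← X.toQD.mp_bd2, ← ltr_bd2, hb, ltr_chn, X.toQD.mp_chn, mul_one, hchU]
    · rw [hlen] at hn; exact hn
  obtain ⟨c₁, hb1, -⟩ := hfill k' k (by ring)
  have hk1 : k * (K₀ / k) = K₀ := Nat.mul_div_cancel' hdk
  have hk2 : k' * (K₀ / k') = K₀ := Nat.mul_div_cancel' hdk'
  obtain ⟨r, hbr, -⟩ := hfill (K₀ / k) (K₀ / k') (by rw [hk1, hk2])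
  have hrel : ((k * k' : ℕ) : ℤ) • r = (K₀ : ℤ) • c₁ := by
    have h0 : ((k * k' : ℕ) : ℤ) • r - (K₀ : ℤ) • c₁ = 0 := by
      apply X.inj
      rw [map_sub, map_smul, map_smul, hb1, hbr, smul_sub, smul_sub, smul_smul, smul_smul,
        smul_smul, smul_smul]
      have e1 : ((k * k' : ℕ) : ℤ) * ((K₀ / k : ℕ) : ℤ) = (K₀ : ℤ) * (k' : ℤ) := by
        have : k * k' * (K₀ / k) = K₀ * k' := by
          calc k * k' * (K₀ / k) = (k * (K₀ / k)) * k' := by ring
            _ = K₀ * k' := by rw [hk1]
        exact_mod_cast this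
      have e2 : ((k * k' : ℕ) : ℤ) * ((K₀ / k' : ℕ) : ℤ) = (K₀ : ℤ) * (k : ℤ) := by
        have : k * k' * (K₀ / k') = K₀ * k := by
          calc k * k' * (K₀ / k') = (k' * (K₀ / k')) * k := by ring
            _ = K₀ * k := by rw [hk2]
        exact_mod_cast this
      rw [e1, e2, sub_self]
    exact sub_eq_zero.1 h0
  refine ⟨r, c₁, hbr, hb1, ?_, ?_, ?_⟩
  · intro s hs hc
    have h1 := DFunLike.congr_fun hrel s
    rw [Finsupp.smul_apply, Finsupp.smul_apply, hc, smul_zero, smul_eq_mul] at h1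
    rcases mul_eq_zero.1 h1 with h | h
    · have : k * k' = 0 := by exact_mod_cast h
      rcases Nat.mul_eq_zero.1 this with h | h <;> omega
    · exact hs h
  · intro N hN
    obtain ⟨cN, hbN, hnN⟩ := hfill (N * k') (N * k) (by ring)
    have h0 : (N : ℤ) • c₁ - cN = 0 := by
      apply X.inj
      rw [map_sub, map_smul, hb1, hbN, smul_sub, smul_smul, smul_smul]
      push_cast
      rw [sub_self]
    have h1 : (N : ℤ) • c₁ = cN := sub_eq_zero.1 h0
    have h2 := nrm_smul (N : ℤ) c₁
    rw [h1, Int.natAbs_natCast] at h2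
    rw [← h2]
    refine hnN.trans (le_of_eq ?_)
    ring
  · have h1 := nrm_smul ((k * k' : ℕ) : ℤ) r
    have h2 := nrm_smul (K₀ : ℤ) c₁
    rw [hrel, h2, Int.natAbs_natCast, Int.natAbs_natCast] at h1
    exact h1.symm

end Pool.Agent.Lib.MP59b239.CT
end

section
/-!
# CT: the co-area inequality for slices (CAR)
-/
namespace Pool.Agent.Lib.MP59b239.CT

open Pool.Agent.Lib.MP59b239.CJ

namespace CARM

open scoped Classical in
/-- `1` if the level `t` is between `a` and `b`. -/
noncomputable def btw (t a b : ℕ) : ℕ :=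
  ((if a < t then (1 : ℤ) else 0) - (if b < t then 1 else 0)).natAbs

theorem btw_le (t a b : ℕ) :
    btw t a b ≤ if t ∈ Finset.Ioc a b ∪ Finset.Ioc b a then 1 else 0 := by
  classical
  unfold btw
  by_cases h1 : a < t <;> by_cases h2 : b < t
  · simp [h1, h2]
  · have : t ∈ Finset.Ioc a b ∪ Finset.Ioc b a := by
      rw [Finset.mem_union, Finset.mem_Ioc]; left; exact ⟨h1, not_lt.mp h2⟩
    rw [if_pos this]; simp [h1, h2]
  · have : t ∈ Finset.Ioc a b ∪ Finset.Ioc b a := by
      rw [Finset.mem_union, Finset.mem_Ioc, Finset.mem_Ioc]; right; exact ⟨h2, not_lt.mp h1⟩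
    rw [if_pos this]; simp [h1, h2]
  · simp [h1, h2]

theorem sum_btw_le (T a b : ℕ) : ∑ t ∈ Finset.range T, btw t a b ≤ (b - a) + (a - b) := by
  classical
  calc ∑ t ∈ Finset.range T, btw t a b
      ≤ ∑ t ∈ Finset.range T, (if t ∈ Finset.Ioc a b ∪ Finset.Ioc b a then 1 else 0) :=
        Finset.sum_le_sum fun t _ => btw_le t a b
    _ = ((Finset.range T).filter fun t => t ∈ Finset.Ioc a b ∪ Finset.Ioc b a).card := by
        rw [Finset.card_filter]
    _ ≤ (Finset.Ioc a b ∪ Finset.Ioc b a).card :=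
        Finset.card_le_card fun t ht => (Finset.mem_filter.mp ht).2
    _ ≤ (Finset.Ioc a b).card + (Finset.Ioc b a).card := Finset.card_union_le _ _
    _ = (b - a) + (a - b) := by rw [Nat.card_Ioc, Nat.card_Ioc]

theorem natAbs_sum_le {ι : Type} (s : Finset ι) (f : ι → ℤ) :
    (∑ i ∈ s, f i).natAbs ≤ ∑ i ∈ s, (f i).natAbs := by
  classical
  induction s using Finset.induction_on with
  | empty => simp
  | insert a s ha ih =>
    rw [Finset.sum_insert ha, Finset.sum_insert ha]
    exact (Int.natAbs_add_le _ _).trans (by omega)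

section

variable {V : Type} {n m : ℕ} (σ : Fin n → Equiv.Perm V) (rel : Fin m → List (Let n))

theorem natAbs_sl_le (f : V → ℕ) (t : ℕ) (c : V × Fin m →₀ ℤ) (e : V × Fin n) :
    (sl σ rel f t c e).natAbs ≤ ∑ s ∈ c.support,
      (c s).natAbs * (chn σ s.1 (rel s.2) e).natAbs * btw t (f e.1) (f s.1) := by
  classical
  rw [sl_apply]
  refine (natAbs_sum_le _ _).trans (le_of_eq ?_)
  refine Finset.sum_congr rfl fun s _ => ?_
  rw [Int.natAbs_mul, Int.natAbs_mul]
  congr 1

theorem cell_le {ρ : ℕ} (f : V → ℕ) (u : V → ℚ) (B : ℚ) (hρ : ∀ j, (rel j).length ≤ ρ)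
    (hu : ∀ v, 0 ≤ u v)
    (hB : ∀ v v' : V, Rch σ ρ v v' →
      ((f v : ℚ) - f v') * u v' ≤ B ∧ ((f v' : ℚ) - f v) * u v' ≤ B)
    (T : ℕ) (s : V × Fin m) (e : V × Fin n) :
    ((chn σ s.1 (rel s.2) e).natAbs : ℚ) * ((∑ t ∈ Finset.range T, btw t (f e.1) (f s.1) : ℕ) : ℚ) *
      u e.1 ≤ ((chn σ s.1 (rel s.2) e).natAbs : ℚ) * B := by
  by_cases h0 : chn σ s.1 (rel s.2) e = 0
  · rw [h0]; simp
  · have hR : Rch σ ρ s.1 e.1 := (rch_of_chn_ne_zero σ _ _ _ h0).mono (hρ _)
    obtain ⟨h1, h2⟩ := hB _ _ hR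
    have h3 := sum_btw_le T (f e.1) (f s.1)
    have h4 : ((∑ t ∈ Finset.range T, btw t (f e.1) (f s.1) : ℕ) : ℚ) * u e.1 ≤ B := by
      rcases le_total (f e.1) (f s.1) with h | h
      · have h5 : ((∑ t ∈ Finset.range T, btw t (f e.1) (f s.1) : ℕ) : ℚ) ≤ (f s.1 : ℚ) - f e.1 := by
          have h6 : ((∑ t ∈ Finset.range T, btw t (f e.1) (f s.1) : ℕ) : ℚ) ≤
              ((f s.1 - f e.1 : ℕ) : ℚ) := by
            exact_mod_cast h3.trans (by omega)
          rwa [Nat.cast_sub h] at h6
        exact (mul_le_mul_of_nonneg_right h5 (hu _)).trans h1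
      · have h5 : ((∑ t ∈ Finset.range T, btw t (f e.1) (f s.1) : ℕ) : ℚ) ≤ (f e.1 : ℚ) - f s.1 := by
          have h6 : ((∑ t ∈ Finset.range T, btw t (f e.1) (f s.1) : ℕ) : ℚ) ≤
              ((f e.1 - f s.1 : ℕ) : ℚ) := by
            exact_mod_cast h3.trans (by omega)
          rwa [Nat.cast_sub h] at h6
        exact (mul_le_mul_of_nonneg_right h5 (hu _)).trans h2
    rw [mul_assoc]
    exact mul_le_mul_of_nonneg_left h4 (Nat.cast_nonneg _)

end

end CARM

open CARM in
theorem specCAR : SpecCAR := by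
  classical
  intro V n m σ rel ρ f u B hρ hu hB c T
  -- the set of the edges
  set S : Finset (V × Fin n) := c.support.biUnion fun s => (chn σ s.1 (rel s.2)).support with hS
  have hsub : ∀ t, (sl σ rel f t c).support ⊆ S := by
    intro t e he
    rw [Finsupp.mem_support_iff, sl_apply] at he
    obtain ⟨s, hs, hne⟩ := Finset.exists_ne_zero_of_sum_ne_zero he
    rw [hS, Finset.mem_biUnion]
    refine ⟨s, hs, ?_⟩
    rw [Finsupp.mem_support_iff]
    intro h0
    rw [h0] at hne
    simp at hne
  have hBc : ∀ s ∈ c.support, 0 ≤ B := by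
    intro s _
    have := (hB s.1 s.1 (Rch.refl σ ρ s.1)).1
    simpa using this
  calc ∑ t ∈ Finset.range T, ∑ e ∈ (sl σ rel f t c).support,
        ((sl σ rel f t c e).natAbs : ℚ) * u e.1
      = ∑ t ∈ Finset.range T, ∑ e ∈ S, ((sl σ rel f t c e).natAbs : ℚ) * u e.1 := by
        refine Finset.sum_congr rfl fun t _ => ?_
        refine Finset.sum_subset (hsub t) fun e _ he => ?_
        rw [Finsupp.notMem_support_iff.mp he]
        simp
    _ ≤ ∑ t ∈ Finset.range T, ∑ e ∈ S, ((∑ s ∈ c.support, (c s).natAbs *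
          (chn σ s.1 (rel s.2) e).natAbs * btw t (f e.1) (f s.1) : ℕ) : ℚ) * u e.1 := by
        refine Finset.sum_le_sum fun t _ => Finset.sum_le_sum fun e _ => ?_
        exact mul_le_mul_of_nonneg_right (by exact_mod_cast natAbs_sl_le σ rel f t c e) (hu _)
    _ = ∑ s ∈ c.support, ((c s).natAbs : ℚ) * ∑ e ∈ S,
          ((chn σ s.1 (rel s.2) e).natAbs : ℚ) *
            ((∑ t ∈ Finset.range T, btw t (f e.1) (f s.1) : ℕ) : ℚ) * u e.1 := by
        have h1 : ∀ t e, ((∑ s ∈ c.support, (c s).natAbs *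
            (chn σ s.1 (rel s.2) e).natAbs * btw t (f e.1) (f s.1) : ℕ) : ℚ) * u e.1 =
            ∑ s ∈ c.support, ((c s).natAbs : ℚ) * (((chn σ s.1 (rel s.2) e).natAbs : ℚ) *
              (btw t (f e.1) (f s.1) : ℚ) * u e.1) := by
          intro t e
          push_cast
          rw [Finset.sum_mul]
          exact Finset.sum_congr rfl fun s _ => by ring
        simp only [h1]
        have h2 : ∀ t, ∑ e ∈ S, ∑ s ∈ c.support, ((c s).natAbs : ℚ) *
            (((chn σ s.1 (rel s.2) e).natAbs : ℚ) * (btw t (f e.1) (f s.1) : ℚ) * u e.1) =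
            ∑ s ∈ c.support, ∑ e ∈ S, ((c s).natAbs : ℚ) *
            (((chn σ s.1 (rel s.2) e).natAbs : ℚ) * (btw t (f e.1) (f s.1) : ℚ) * u e.1) :=
          fun t => Finset.sum_comm
        simp only [h2]
        rw [Finset.sum_comm]
        refine Finset.sum_congr rfl fun s _ => ?_
        rw [Finset.sum_comm, Finset.mul_sum]
        refine Finset.sum_congr rfl fun e _ => ?_
        rw [← Finset.mul_sum]
        congr 1
        push_cast
        rw [Finset.mul_sum, Finset.sum_mul]
    _ ≤ ∑ s ∈ c.support, ((c s).natAbs : ℚ) * ∑ e ∈ S,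
          ((chn σ s.1 (rel s.2) e).natAbs : ℚ) * B := by
        refine Finset.sum_le_sum fun s _ => mul_le_mul_of_nonneg_left ?_ (Nat.cast_nonneg _)
        exact Finset.sum_le_sum fun e _ => cell_le σ rel f u B hρ hu hB T s e
    _ ≤ ∑ s ∈ c.support, ((c s).natAbs : ℚ) * (ρ * B) := by
        refine Finset.sum_le_sum fun s hs => mul_le_mul_of_nonneg_left ?_ (Nat.cast_nonneg _)
        rw [← Finset.sum_mul]
        refine mul_le_mul_of_nonneg_right ?_ (hBc s hs)
        have h1 : (chn σ s.1 (rel s.2)).support ⊆ S := by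
          rw [hS]
          exact Finset.subset_biUnion_of_mem (fun s : V × Fin m => (chn σ s.1 (rel s.2)).support) hs
        have h2 := nrm_eq_of_subset (chn σ s.1 (rel s.2)) S h1
        have h3 := (nrm_chn_le σ s.1 (rel s.2)).trans (hρ s.2)
        rw [h2] at h3
        exact_mod_cast h3
    _ = ρ * B * nrm c := by
        rw [← Finset.sum_mul, nrm, Finsupp.sum]
        push_cast
        ring

end Pool.Agent.Lib.MP59b239.CT
end

section
/-!
# CT, module CLU: the cluster which contains the change of sides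
-/
namespace Pool.Agent.Lib.MP59b239.CT

open Pool.Agent.Lib.MP59b239.CJ

namespace CLUM

theorem mono_idx {r : ℕ} {idx : ℕ → ℕ} (h : ∀ j < r, idx j < idx (j + 1)) :
    ∀ i j, i ≤ j → j ≤ r → idx i ≤ idx j := by
  intro i j hij
  induction j, hij using Nat.le_induction with
  | base => intro _; exact le_rfl
  | succ j _ ih =>
    intro hj
    have h1 := ih (by omega)
    have h2 := h j (by omega)
    omega

theorem exists_greatest (P : ℕ → Prop) (b : ℕ) (h0 : P 0) (hb : 0 < b) :
    ∃ a, a < b ∧ P a ∧ ∀ c, a < c → c < b → ¬ P c := by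
  classical
  refine ⟨Nat.findGreatest P (b - 1), ?_, ?_, ?_⟩
  · have := Nat.findGreatest_le (P := P) (b - 1)
    omega
  · exact Nat.findGreatest_spec (Nat.zero_le _) h0
  · intro c hc hcb
    exact Nat.findGreatest_is_greatest hc (by omega)

end CLUM

open CLUM in
theorem specCLU : SpecCLU := by
  classical
  intro r D₂ ν idx lcl near clear s h1 h2 h3 h4 h5 h6 h7 h8 h9 h10
  have hmono := mono_idx h1
  have hν : ∀ i ≤ r, ((Finset.range i).filter near).card ≤ ν := by
    intro i hi
    refine le_trans (Finset.card_le_card ?_) h10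
    intro x hx
    rw [Finset.mem_filter, Finset.mem_range] at hx
    rw [Finset.mem_filter, Finset.mem_range]
    exact ⟨by omega, hx.2⟩
  let cut : ℕ → Prop := fun j => clear j ∧ ∀ i i', i < j → j ≤ i' → i' < r →
    lcl i → near i → lcl i' → near i' → idx i + D₂ < idx i'
  have hc0 : cut 0 := ⟨h2 0 (Nat.zero_le _) h3, fun i i' h => absurd h (Nat.not_lt_zero _)⟩
  have hcr : cut r := ⟨h2 r le_rfl h4, fun i i' _ hi hi' => absurd hi' (by omega)⟩
  have hex : ∃ b, b ≤ r ∧ cut b ∧ s b := ⟨r, le_rfl, hcr, h6⟩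
  obtain ⟨b, ⟨hbr, hcb, hsb⟩, hbmin⟩ : ∃ b, (b ≤ r ∧ cut b ∧ s b) ∧
      ∀ c < b, ¬ (c ≤ r ∧ cut c ∧ s c) :=
    ⟨Nat.find hex, Nat.find_spec hex, fun c hc => Nat.find_min hex hc⟩
  have hb0 : 0 < b := by
    rcases Nat.eq_zero_or_pos b with h | h
    · rw [h] at hsb; exact absurd hsb h5
    · exact h
  obtain ⟨a, hab, hca, hamax⟩ := exists_greatest cut b hc0 hb0
  have hsa : ¬ s a := fun h => hbmin a hab ⟨by omega, hca, h⟩
  -- the cluster is not empty
  have hne : ∃ j, a ≤ j ∧ j < b ∧ lcl j ∧ near j := by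
    by_contra hcon
    push Not at hcon
    have hk : ∀ k, a + k ≤ b → ¬ s (a + k) := by
      intro k
      induction k with
      | zero => intro _; exact hsa
      | succ k ih =>
        intro hk hs
        have hk1 := ih (by omega)
        apply hk1
        by_cases hl : lcl (a + k)
        · exact (h7 (a + k) (by omega) hl (hcon (a + k) (by omega) (by omega) hl)).mpr hs
        · exact (h8 (a + k) (by omega) hl).2.2.mpr hs
    have := hk (b - a) (by omega)
    rw [show a + (b - a) = b by omega] at this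
    exact this hsb
  obtain ⟨j₀, ⟨hj1, hj2, hj3, hj4⟩, hjmin⟩ : ∃ j, (a ≤ j ∧ j < b ∧ lcl j ∧ near j) ∧
      ∀ c < j, ¬ (a ≤ c ∧ c < b ∧ lcl c ∧ near c) :=
    ⟨Nat.find hne, Nat.find_spec hne, fun c hc => Nat.find_min hne hc⟩
  -- consecutive elements
  have hcons : ∀ i i', a ≤ i → i < i' → i' < b → lcl i → near i → lcl i' → near i' →
      (∀ c, i < c → c < i' → ¬ (lcl c ∧ near c)) → idx i' ≤ idx i + D₂ := by
    intro i i' hai hii hib hli hni hli' hni' hbetween
    by_contra hcon
    push Not at hcon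
    have e1 := h9 i (by omega) hli
    have e2 : i + 1 < i' := by
      rcases Nat.lt_or_ge (i + 1) i' with h | h
      · exact h
      · have : i + 1 = i' := by omega
        rw [this] at e1
        omega
    have e3 : clear (i + 1) := by
      by_cases hn : near (i + 1)
      · by_cases hl : lcl (i + 1)
        · exact absurd ⟨hl, hn⟩ (hbetween (i + 1) (by omega) e2)
        · exact (h8 (i + 1) (by omega) hl).1
      · exact h2 (i + 1) (by omega) hn
    refine hamax (i + 1) (by omega) (by omega) ⟨e3, ?_⟩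
    intro i₁ i₂ h11 h12 h13 h14 h15 h16 h17
    have e4 := hmono i₁ i (by omega) (by omega)
    have e5 : i' ≤ i₂ := by
      by_contra hc
      push Not at hc
      exact hbetween i₂ (by omega) hc ⟨h16, h17⟩
    have e6 := hmono i' i₂ e5 (by omega)
    omega
  have hbound : ∀ j, a ≤ j → j < b → lcl j → near j →
      idx j ≤ idx j₀ + ((Finset.range j).filter near).card * D₂ := by
    intro j
    induction j using Nat.strong_induction_on with
    | _ j ih =>
      intro haj hjb hlj hnj
      rcases Nat.lt_trichotomy j j₀ with h | h | h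
      · exact absurd ⟨haj, hjb, hlj, hnj⟩ (hjmin j h)
      · rw [h]; exact Nat.le_add_right _ _
      · obtain ⟨i, hij, ⟨hai, hli, hni⟩, himax⟩ :
            ∃ i, i < j ∧ (a ≤ i ∧ lcl i ∧ near i) ∧
              ∀ c, i < c → c < j → ¬ (a ≤ c ∧ lcl c ∧ near c) := by
          refine ⟨Nat.findGreatest (fun i => a ≤ i ∧ lcl i ∧ near i) (j - 1), ?_, ?_, ?_⟩
          · have := Nat.findGreatest_le (P := fun i => a ≤ i ∧ lcl i ∧ near i) (j - 1)
            omega
          · exact Nat.findGreatest_spec (P := fun i => a ≤ i ∧ lcl i ∧ near i) (m := j₀)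
              (by omega) ⟨hj1, hj3, hj4⟩
          · intro c hc hcb
            exact Nat.findGreatest_is_greatest hc (by omega)
        have e1 := ih i hij hai (by omega) hli hni
        have e2 := hcons i j hai hij hjb hli hni hlj hnj
          (fun c h1 h2 h3 => himax c h1 h2 ⟨by omega, h3⟩)
        have e3 : ((Finset.range i).filter near).card + 1 ≤
            ((Finset.range j).filter near).card := by
          rw [Nat.add_one_le_iff]
          apply Finset.card_lt_card
          rw [Finset.ssubset_iff_of_subset]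
          · refine ⟨i, ?_, ?_⟩
            · rw [Finset.mem_filter, Finset.mem_range]
              exact ⟨hij, hni⟩
            · rw [Finset.mem_filter, Finset.mem_range]
              exact fun h => lt_irrefl _ h.1
          · intro x hx
            rw [Finset.mem_filter, Finset.mem_range] at hx
            rw [Finset.mem_filter, Finset.mem_range]
            exact ⟨by omega, hx.2⟩
        calc idx j ≤ idx i + D₂ := e2
          _ ≤ idx j₀ + (((Finset.range i).filter near).card + 1) * D₂ := by
            rw [Nat.add_mul, Nat.one_mul]; omega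
          _ ≤ _ := Nat.add_le_add_left (Nat.mul_le_mul_right _ e3) _
  refine ⟨a, b, hab.le, hbr, hca.1, hcb.1, hsa, hsb, j₀, hj1, hj2, hj3, hj4, ?_, ?_⟩
  · intro j haj hjb hlj hnj
    constructor
    · refine (hbound j haj hjb hlj hnj).trans ?_
      exact Nat.add_le_add_left (Nat.mul_le_mul_right _ (hν j (by omega))) _
    · have : j₀ ≤ j := by
        by_contra hc
        exact hjmin j (by omega) ⟨haj, hjb, hlj, hnj⟩
      exact (hmono j₀ j this (by omega)).trans (Nat.le_add_right _ _)
  · intro j i haj hjb hlj hnj hir hli hni hnot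
    rcases Nat.lt_or_ge i a with h | h
    · exact Or.inl (hca.2 i j h haj (by omega) hli hni hlj hnj)
    · have hbi : b ≤ i := by
        by_contra hc
        exact hnot ⟨h, by omega⟩
      exact Or.inr (hcb.2 j i hjb hbi hir hlj hnj hli hni)

end Pool.Agent.Lib.MP59b239.CT
end

section
/-!
# LVQ: the distance to the centralizer on the quotient
-/
namespace Pool.Agent.Lib.MP59b239.CT

open Pool.Agent.Lib.MP59b239.CJ

theorem specLVQ (hLVL : SpecLVL) : SpecLVQ := by
  intro G _ n gen hgen g D
  obtain ⟨f, hf1, hf2, hf3, hf4⟩ := hLVL G n gen hgen g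
  have key : ∀ x : G, f (Function.surjInv D.surj (D.π x)) = f x := fun x => by
    obtain ⟨k, hk⟩ := (D.rel x (Function.surjInv D.surj (D.π x))).1
      (Function.surjInv_eq D.surj (D.π x)).symm
    rw [hk]
    exact hf1 _ _ ((Commute.refl g).zpow_left k).eq
  refine ⟨fun q => f (Function.surjInv D.surj q), fun q a => ?_, ?_, fun z x hz => ?_,
    fun x => ?_⟩
  · obtain ⟨x, rfl⟩ := D.surj q
    show f (Function.surjInv D.surj (stp D.σ (D.π x) a)) ≤
      f (Function.surjInv D.surj (D.π x)) + 1
    rw [QD.stp, key, key, stp_rsh]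
    cases a with
    | inl i => exact (hf2 x i).1
    | inr i =>
      have h := (hf2 (x * (gen i)⁻¹) i).2
      rw [inv_mul_cancel_right] at h
      exact h
  · show f (Function.surjInv D.surj (D.π 1)) = 0
    rw [key, hf3]
  · show f (Function.surjInv D.surj (D.π (z * x))) = f (Function.surjInv D.surj (D.π x))
    rw [key, key]
    exact hf1 z x hz
  · obtain ⟨z, w, h1, h2, h3⟩ := hf4 x
    exact ⟨z, w, h1, h2, h3.trans (key x).symm⟩

end Pool.Agent.Lib.MP59b239.CT
end

section
/-!
# LWT: the least length of a loop with a nonzero winding number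
-/
namespace Pool.Agent.Lib.MP59b239.CT

open Pool.Agent.Lib.MP59b239.CJ

namespace LWTM

variable {G : Type} [Group G] {n : ℕ} {gen : Fin n → G} {g : G}

/-- There is a loop of length `N` over `q` with a nonzero winding number. -/
def LP (D : QD gen g) (q : D.Q) (N : ℕ) : Prop :=
  ∃ (x : G) (w : List (Let n)) (k : ℤ), D.π x = q ∧ k ≠ 0 ∧ x * ev gen w = g ^ k * x ∧
    w.length = N

theorem exists_LP (hgen : ∀ x : G, ∃ w : List (Let n), ev gen w = x) (D : QD gen g) (q : D.Q) :
    ∃ N, LP D q N := by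
  obtain ⟨x, hx⟩ := D.surj q
  obtain ⟨w, hw⟩ := hgen (x⁻¹ * g * x)
  exact ⟨w.length, x, w, 1, hx, one_ne_zero, by rw [hw]; group, rfl⟩

theorem inv_loop (x : G) (w : List (Let n)) (k : ℤ) (h : x * ev gen w = g ^ k * x) :
    x * ev gen (inv w) = g ^ (-k) * x := by
  rw [ev_inv, mul_inv_eq_iff_eq_mul, mul_assoc, h, ← mul_assoc, ← zpow_add, neg_add_cancel,
    zpow_zero, one_mul]

end LWTM

open LWTM

theorem specLWT : SpecLWT := by
  classical
  intro G _ n gen g D hgen hinf
  have hex := exists_LP hgen D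
  have hatt : ∀ x : G, ∃ (w : List (Let n)) (k : ℕ), 0 < k ∧ x * ev gen w = g ^ k * x ∧
      w.length = Nat.find (hex (D.π x)) := by
    intro x
    obtain ⟨x', w, k, hπ, hk, h, hl⟩ := Nat.find_spec (hex (D.π x))
    obtain ⟨j, hj⟩ := (D.rel x' x).mp hπ
    have h1 : x * ev gen w = g ^ k * x := by
      rw [hj, mul_assoc, h, ← mul_assoc, ← mul_assoc, ← zpow_add, ← zpow_add, add_comm]
    rcases lt_or_gt_of_ne hk with hk' | hk'
    · refine ⟨inv w, k.natAbs, Int.natAbs_pos.mpr hk, ?_, by rw [length_inv, hl]⟩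
      have h2 := inv_loop x w k h1
      have h3 : (-k : ℤ) = (k.natAbs : ℤ) := by omega
      rw [h2, h3, zpow_natCast]
    · refine ⟨w, k.natAbs, Int.natAbs_pos.mpr hk, ?_, hl⟩
      have h3 : k = (k.natAbs : ℤ) := by omega
      rw [h1, ← zpow_natCast, ← h3]
  have hle : ∀ (x : G) (w : List (Let n)) (k : ℤ), k ≠ 0 → x * ev gen w = g ^ k * x →
      Nat.find (hex (D.π x)) ≤ w.length := fun x w k hk h =>
    Nat.find_min' (hex (D.π x)) ⟨x, w, k, rfl, hk, h, rfl⟩
  refine ⟨fun q => Nat.find (hex q), ?_, hle, hatt, ?_⟩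
  · intro q
    obtain ⟨x, w, k, -, hk, h, hl⟩ := Nat.find_spec (hex q)
    show 1 ≤ Nat.find (hex q)
    rw [← hl]
    rcases w with _ | ⟨a, w⟩
    · exfalso
      rw [ev_nil, mul_one] at h
      exact hk (hinf k (by
        have : 1 * x = g ^ k * x := by rw [one_mul]; exact h
        exact (mul_right_cancel this).symm))
    · simp
  · intro q a
    obtain ⟨x, rfl⟩ := D.surj q
    obtain ⟨w, k, hk, h, hl⟩ := hatt x
    show Nat.find (hex (stp D.σ (D.π x) a)) ≤ Nat.find (hex (D.π x)) + 2
    rw [D.stp, stp_rsh, ← hl]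
    have h1 := hle (x * Sum.elim gen (fun i => (gen i)⁻¹) a) (a.swap :: (w ++ [a])) k
      (by exact_mod_cast hk.ne') ?_
    · simpa using h1
    · have h2 : Sum.elim gen (fun i => (gen i)⁻¹) a.swap =
          (Sum.elim gen (fun i => (gen i)⁻¹) a)⁻¹ := by
        cases a <;> simp
      rw [ev_cons, ev_append, ev_cons, ev_nil, mul_one, h2, zpow_natCast]
      calc x * Sum.elim gen (fun i => (gen i)⁻¹) a *
            ((Sum.elim gen (fun i => (gen i)⁻¹) a)⁻¹ *
              (ev gen w * Sum.elim gen (fun i => (gen i)⁻¹) a))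
          = x * ev gen w * Sum.elim gen (fun i => (gen i)⁻¹) a := by group
        _ = g ^ k * (x * Sum.elim gen (fun i => (gen i)⁻¹) a) := by rw [h, mul_assoc]

end Pool.Agent.Lib.MP59b239.CT
end

section
/-!
# CT, module NMC: the norm of the annulus (numbers)
-/
namespace Pool.Agent.Lib.MP59b239.CT

open Pool.Agent.Lib.MP59b239.CJ

theorem specNMC : SpecNMC := by
  intro C l m c h hlm
  set M := m + 1 with hM
  set lam := l + 1 with hlam
  have hlam0 : 0 < lam := by omega
  have hM0 : 0 < M := by omega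
  have h1 : M < (M / lam + 1) * lam := Nat.lt_mul_of_div_lt (Nat.lt_succ_self _) hlam0
  have h2 : (M / lam + 1) * lam ≤ 2 * M := by
    have := Nat.div_mul_le_self M lam
    rw [Nat.add_mul, one_mul]
    omega
  set N := M / lam + 1 with hN
  have hN0 : 0 < N := Nat.succ_pos _
  have h3 : N * l + 2 * m + 1 ≤ 4 * M := by
    have h4 : N * lam = N * l + N := by rw [hlam, Nat.mul_add, mul_one]
    omega
  have h5 : N * c ≤ C * (4 * M) ^ 2 :=
    (h N hN0).trans (Nat.mul_le_mul_left _ (Nat.pow_le_pow_left h3 2))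
  have h6 : M * c ≤ M * (16 * C * lam * M) := by
    calc M * c ≤ (N * lam) * c := Nat.mul_le_mul_right _ h1.le
      _ = lam * (N * c) := by ring
      _ ≤ lam * (C * (4 * M) ^ 2) := Nat.mul_le_mul_left _ h5
      _ = M * (16 * C * lam * M) := by ring
  exact Nat.le_of_mul_le_mul_left h6 hM0

end Pool.Agent.Lib.MP59b239.CT
end

section
/-!
# PHI: walks of minimal cost
-/
namespace Pool.Agent.Lib.MP59b239.CT

open Pool.Agent.Lib.MP59b239.CJ

/-- **PHI**: walks of minimal cost. -/
theorem specPHI : SpecPHI := by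
  classical
  intro V n σ l v₀ hl hc
  have hex : ∀ v, ∃ c, ∃ w : List (Let n), wlk σ v₀ w = v ∧ cst σ l v₀ w = c := fun v => by
    obtain ⟨w, hw⟩ := hc v
    exact ⟨_, w, hw, rfl⟩
  have hmin : ∀ (v : V) (w : List (Let n)), wlk σ v₀ w = v →
      Nat.find (hex v) ≤ cst σ l v₀ w := fun v w hw => Nat.find_min' (hex v) ⟨w, hw, rfl⟩
  have hatt : ∀ v, ∃ w : List (Let n), wlk σ v₀ w = v ∧ cst σ l v₀ w = Nat.find (hex v) :=
    fun v => Nat.find_spec (hex v)
  refine ⟨fun v => Nat.find (hex v), ?_, ?_, ?_⟩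
  · intro v a
    obtain ⟨w, hw, hw'⟩ := hatt v
    have h1 := hmin (stp σ v a) (w ++ [a]) (by rw [wlk_append, hw]; rfl)
    rw [cst_append, hw, hw'] at h1
    simpa [cst] using h1
  · have := hmin v₀ [] rfl
    simpa [cst] using this
  · intro v
    obtain ⟨W, hW, hW'⟩ := hatt v
    refine ⟨W, hW, hW', ?_⟩
    intro i i' hii hi' w hw
    have e1 : W = W.take i' ++ W.drop i' := (List.take_append_drop i' W).symm
    have e2 : W.take i' = W.take i ++ (W.take i').drop i := by
      have := (List.take_append_drop i (W.take i')).symm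
      rwa [List.take_take, min_eq_left hii] at this
    have h1 := hmin v (W.take i ++ w ++ W.drop i') (by
      rw [wlk_append, wlk_append, hw, ← wlk_append, List.take_append_drop, hW])
    rw [cst_append, cst_append, wlk_append, hw] at h1
    have h2 : cst σ l v₀ W = cst σ l v₀ (W.take i) +
        cst σ l (wlk σ v₀ (W.take i)) ((W.take i').drop i) +
        cst σ l (wlk σ v₀ (W.take i')) (W.drop i') := by
      conv_lhs => rw [e1]
      rw [cst_append]
      congr 1
      conv_lhs => rw [e2]
      rw [cst_append]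
    have h3 := length_le_cst σ l hl (wlk σ v₀ (W.take i)) ((W.take i').drop i)
    rw [List.length_drop, List.length_take, min_eq_left hi'] at h3
    omega

end Pool.Agent.Lib.MP59b239.CT
end

section
/-!
# CT: the slices for a function which changes by at most one along the edges (SUM)
-/
namespace Pool.Agent.Lib.MP59b239.CT

open Pool.Agent.Lib.MP59b239.CJ

theorem specSUM (hCAR : SpecCAR) : SpecSUM := by
  intro V n m σ rel ρ f hρ hf c T
  have hkey : ∀ v v' : V, Rch σ ρ v v' → ((f v : ℚ) - f v') * (fun _ : V => (1 : ℚ)) v' ≤ ρ ∧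
      ((f v' : ℚ) - f v) * (fun _ : V => (1 : ℚ)) v' ≤ ρ := by
    intro v v' h
    have h1 := le_add_of_rch σ f 1 hf h
    have h2 := le_add_of_rch σ f 1 hf (Rch.symm h)
    have h1' : (f v' : ℚ) ≤ f v + 1 * ρ := by exact_mod_cast h1
    have h2' : (f v : ℚ) ≤ f v' + 1 * ρ := by exact_mod_cast h2
    constructor
    · show ((f v : ℚ) - f v') * 1 ≤ ρ
      linarith
    · show ((f v' : ℚ) - f v) * 1 ≤ ρ
      linarith
  have h := hCAR V n m σ rel ρ f (fun _ => 1) (ρ : ℚ) hρ (fun _ => zero_le_one) hkey c T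
  have hL : (∑ t ∈ Finset.range T, ∑ e ∈ (sl σ rel f t c).support,
        ((sl σ rel f t c e).natAbs : ℚ) * (fun _ : V => (1 : ℚ)) e.1) =
      ((∑ t ∈ Finset.range T, nrm (sl σ rel f t c) : ℕ) : ℚ) := by
    rw [Nat.cast_sum]
    refine Finset.sum_congr rfl fun t _ => ?_
    rw [nrm, Finsupp.sum, Nat.cast_sum]
    refine Finset.sum_congr rfl fun e _ => ?_
    simp
  rw [hL] at h
  have h3 : ((∑ t ∈ Finset.range T, nrm (sl σ rel f t c) : ℕ) : ℚ) ≤ ((ρ ^ 2 * nrm c : ℕ) : ℚ) := by
    refine h.trans (le_of_eq ?_)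
    push_cast
    ring
  exact_mod_cast h3

end Pool.Agent.Lib.MP59b239.CT
end

section
/-!
# CT: module THN (the enumeration of the thin positions)
-/
namespace Pool.Agent.Lib.MP59b239.CT

open Pool.Agent.Lib.MP59b239.CJ

namespace THNM

open scoped Classical in
theorem main (P : ℕ → Prop) (h0 : P 0) : ∀ N : ℕ, P N →
    ∃ (r : ℕ) (idx : ℕ → ℕ), idx 0 = 0 ∧ idx r = N ∧ (∀ j < r, idx j < idx (j + 1)) ∧
      (∀ j ≤ r, P (idx j)) ∧ r ≤ N ∧ ∀ D, 1 ≤ D →
        (∑ j ∈ (Finset.range r).filter (fun j => ¬ idx (j + 1) ≤ idx j + D),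
          (idx (j + 1) - idx j) ≤ 2 * ((Finset.range (N + 1)).filter fun i => ¬ P i).card) ∧
        ((Finset.range r).filter fun j => ¬ idx (j + 1) ≤ idx j + D).card ≤
          ((Finset.range (N + 1)).filter fun i => ¬ P i).card := by
  intro N
  induction N using Nat.strong_induction_on with
  | _ N ih =>
    intro hN
    rcases Nat.eq_zero_or_pos N with hN0 | hN0
    · subst hN0
      exact ⟨0, fun _ => 0, rfl, rfl, fun j hj => absurd hj (Nat.not_lt_zero j), fun _ _ => h0,
        le_rfl, fun D hD => ⟨by simp, by simp⟩⟩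
    · -- the last element below `N`
      obtain ⟨M, hM, hPM, hmax⟩ : ∃ M, M < N ∧ P M ∧ ∀ i, M < i → i < N → ¬ P i := by
        have hne : ((Finset.range N).filter P).Nonempty :=
          ⟨0, Finset.mem_filter.2 ⟨Finset.mem_range.2 hN0, h0⟩⟩
        refine ⟨((Finset.range N).filter P).max' hne, ?_, ?_, ?_⟩
        · exact Finset.mem_range.1 (Finset.mem_filter.1 (Finset.max'_mem _ hne)).1
        · exact (Finset.mem_filter.1 (Finset.max'_mem _ hne)).2
        · intro i hi hiN hPi
          have := Finset.le_max' _ i (Finset.mem_filter.2 ⟨Finset.mem_range.2 hiN, hPi⟩)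
          omega
      obtain ⟨r, idx, hi0, hir, hinc, hP, hrM, hD⟩ := ih M hM hPM
      -- the count
      have hcnt : ((Finset.range (M + 1)).filter fun i => ¬ P i).card + (N - M - 1) ≤
          ((Finset.range (N + 1)).filter fun i => ¬ P i).card := by
        have hdis : Disjoint ((Finset.range (M + 1)).filter fun i => ¬ P i) (Finset.Ioo M N) := by
          rw [Finset.disjoint_left]
          intro i hi hi'
          rw [Finset.mem_filter, Finset.mem_range] at hi
          rw [Finset.mem_Ioo] at hi'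
          omega
        rw [← Nat.card_Ioo, ← Finset.card_union_of_disjoint hdis]
        apply Finset.card_le_card
        intro i hi
        rw [Finset.mem_union] at hi
        rw [Finset.mem_filter, Finset.mem_range]
        rcases hi with hi | hi
        · rw [Finset.mem_filter, Finset.mem_range] at hi
          exact ⟨by omega, hi.2⟩
        · rw [Finset.mem_Ioo] at hi
          exact ⟨by omega, hmax i hi.1 hi.2⟩
      let idx' : ℕ → ℕ := fun j => if j ≤ r then idx j else N
      have h1 : ∀ j, j ≤ r → idx' j = idx j := fun j hj => if_pos hj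
      have h2 : idx' (r + 1) = N := if_neg (by omega)
      have hlt : ∀ D, ∀ j ∈ Finset.range r, (¬ idx' (j + 1) ≤ idx' j + D) ↔
          (¬ idx (j + 1) ≤ idx j + D) := by
        intro D j hj
        rw [Finset.mem_range] at hj
        rw [h1 j (by omega), h1 (j + 1) (by omega)]
      refine ⟨r + 1, idx', ?_, h2, ?_, ?_, by omega, ?_⟩
      · rw [h1 0 (Nat.zero_le _), hi0]
      · intro j hj
        rcases Nat.lt_or_ge j r with h3 | h3
        · rw [h1 j (by omega), h1 (j + 1) (by omega)]
          exact hinc j h3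
        · have h4 : j = r := by omega
          subst h4
          rw [h1 j le_rfl, h2, hir]
          exact hM
      · intro j hj
        rcases Nat.lt_or_ge r j with h3 | h3
        · have h4 : j = r + 1 := by omega
          rw [h4, h2]
          exact hN
        · rw [h1 j h3]
          exact hP j h3
      · intro D hD1
        obtain ⟨hs, hc⟩ := hD D hD1
        have hfil : (Finset.range r).filter (fun j => ¬ idx' (j + 1) ≤ idx' j + D) =
            (Finset.range r).filter (fun j => ¬ idx (j + 1) ≤ idx j + D) :=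
          Finset.filter_congr (hlt D)
        have hsum : ∑ j ∈ (Finset.range r).filter (fun j => ¬ idx (j + 1) ≤ idx j + D),
            (idx' (j + 1) - idx' j) =
            ∑ j ∈ (Finset.range r).filter (fun j => ¬ idx (j + 1) ≤ idx j + D),
            (idx (j + 1) - idx j) := by
          apply Finset.sum_congr rfl
          intro j hj
          rw [Finset.mem_filter, Finset.mem_range] at hj
          rw [h1 j (by omega), h1 (j + 1) (by omega)]
        rw [Finset.range_add_one, Finset.filter_insert, hfil]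
        by_cases hgap : ¬ idx' (r + 1) ≤ idx' r + D
        · rw [if_pos hgap]
          have hnot : r ∉ (Finset.range r).filter (fun j => ¬ idx (j + 1) ≤ idx j + D) := by
            intro hmem
            rw [Finset.mem_filter, Finset.mem_range] at hmem
            omega
          rw [Finset.sum_insert hnot, Finset.card_insert_of_notMem hnot, hsum]
          rw [h2, h1 r le_rfl, hir] at hgap ⊢
          omega
        · rw [if_neg hgap, hsum]
          omega

end THNM

theorem specTHN : SpecTHN := fun N P h0 hN => THNM.main P h0 N hN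

end Pool.Agent.Lib.MP59b239.CT
end
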