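import Pool.Agent.Lib.MP_59b239_al.CJ.Defs

/-!
# The conjugacy problem for two-dimensional automatic groups, translation lengths (CT): definitions
-/

namespace Pool.Agent.Lib.MP59b239.CT

open Pool.Agent.Lib.MP59b239.CJ

/-- The translation number of `g` is at least `1 / E`: for all `y` and all integers `k`, every word
`w` which represents `y⁻¹ g ^ k y` has a length `≥ |k| / E`. -/
def TransBound {G : Type} [Group G] {n : ℕ} (gen : Fin n → G) (E : ℕ) (g : G) : Prop :=
  ∀ (y : G) (k : ℤ) (w : List (Fin n ⊕ Fin n)), y * ev gen w = g ^ k * y →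
    k.natAbs ≤ E * w.length

end Pool.Agent.Lib.MP59b239.CT
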