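import Pool.Agent.Lib.MP_59b239_al.CJ.Spec
import Pool.Agent.Lib.MP_59b239_al.CT.Defs

/-!
# CT: the context and basic facts
-/

namespace Pool.Agent.Lib.MP59b239.CT

open Pool.Agent.Lib.MP59b239.CJ

/-- `v'` can be reached from `v` by a walk of length `≤ R`. -/
def Rch {V : Type} {n : ℕ} (σ : Fin n → Equiv.Perm V) (R : ℕ) (v v' : V) : Prop :=
  ∃ w : List (Let n), w.length ≤ R ∧ wlk σ v w = v'

/-- The cost of a walk: the sum of `l` over the vertices which are visited after each step. -/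
def cst {V : Type} {n : ℕ} (σ : Fin n → Equiv.Perm V) (l : V → ℕ) : V → List (Let n) → ℕ
  | _, [] => 0
  | v, a :: w => l (stp σ v a) + cst σ l (stp σ v a) w

/-- The part of a chain below the level `t`. -/
noncomputable def lo {V : Type} {r : ℕ} (f : V → ℕ) (t : ℕ) :
    (V × Fin r →₀ ℤ) →ₗ[ℤ] (V × Fin r →₀ ℤ) :=
  Finsupp.linearCombination ℤ fun s => if f s.1 < t then Finsupp.single s 1 else 0

/-- The slice of a `2`-chain at the level `t`. -/
noncomputable def sl {V : Type} {n m : ℕ} (σ : Fin n → Equiv.Perm V) (rel : Fin m → List (Let n))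
    (f : V → ℕ) (t : ℕ) : (V × Fin m →₀ ℤ) →ₗ[ℤ] (V × Fin n →₀ ℤ) :=
  (lo f t).comp (bd2 σ rel) - (bd2 σ rel).comp (lo f t)

/-- The data of the quotient of the Cayley complex by the powers of `g`. -/
structure Ctx {G : Type} [Group G] {n m : ℕ} (gen : Fin n → G) (rl : Fin m → List (Let n))
    (C ρ E : ℕ) (g : G) extends QD gen g where
  /-- the winding number -/
  ω : (Q × Fin n →₀ ℤ) →ₗ[ℤ] ℤ
  /-- the least length of a loop with a nonzero winding number -/
  l : Q → ℕ
  /-- the distance to the centralizer of `g` -/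
  F : Q → ℕ
  inj : ∀ c : Q × Fin m →₀ ℤ, bd2 σ rl c = 0 → c = 0
  iso : ∀ w : List (Let n), ev gen w = 1 → ∃ c : G × Fin m →₀ ℤ,
    bd2 (rsh gen) rl c = chn (rsh gen) 1 w ∧ nrm c ≤ C * (w.length + 1) ^ 2
  rel_len : ∀ j, (rl j).length ≤ ρ
  rel_one : ∀ j, ev gen (rl j) = 1
  gens : ∀ x : G, ∃ w : List (Let n), ev gen w = x
  ω_loop : ∀ (x : G) (w : List (Let n)) (k : ℤ), x * ev gen w = g ^ k * x →
    ω (chn σ (π x) w) = k
  tb : ∀ (x : G) (w : List (Let n)) (k : ℤ), x * ev gen w = g ^ k * x → k.natAbs ≤ E * w.length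
  l_pos : ∀ q, 1 ≤ l q
  l_le : ∀ (x : G) (w : List (Let n)) (k : ℤ), k ≠ 0 → x * ev gen w = g ^ k * x →
    l (π x) ≤ w.length
  l_att : ∀ x : G, ∃ (w : List (Let n)) (k : ℕ), 0 < k ∧ x * ev gen w = g ^ k * x ∧
    w.length = l (π x)
  l_stp : ∀ (q : Q) (a : Let n), l (stp σ q a) ≤ l q + 2
  F_stp : ∀ (q : Q) (a : Let n), F (stp σ q a) ≤ F q + 1
  F_one : F (π 1) = 0
  F_com : ∀ z x : G, z * g = g * z → F (π (z * x)) = F (π x)
  F_att : ∀ x : G, ∃ (z : G) (w : List (Let n)), z * g = g * z ∧ x = z * ev gen w ∧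
    w.length = F (π x)

/-! ### Walks -/

section Walk

variable {V : Type} {n m : ℕ} (σ : Fin n → Equiv.Perm V)

theorem Rch.refl (R : ℕ) (v : V) : Rch σ R v v := ⟨[], by simp, rfl⟩

variable {σ}

theorem Rch.trans {R R' : ℕ} {v v' v'' : V} (h : Rch σ R v v') (h' : Rch σ R' v' v'') :
    Rch σ (R + R') v v'' := by
  obtain ⟨w, hw, rfl⟩ := h
  obtain ⟨w', hw', rfl⟩ := h'
  exact ⟨w ++ w', by rw [List.length_append]; omega, wlk_append σ v w w'⟩

theorem Rch.symm {R : ℕ} {v v' : V} (h : Rch σ R v v') : Rch σ R v' v := by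
  obtain ⟨w, hw, rfl⟩ := h
  exact ⟨inv w, by simpa using hw, wlk_inv σ v w⟩

theorem Rch.mono {R R' : ℕ} (hR : R ≤ R') {v v' : V} (h : Rch σ R v v') : Rch σ R' v v' := by
  obtain ⟨w, hw, rfl⟩ := h
  exact ⟨w, hw.trans hR, rfl⟩

variable (σ)

theorem rch_stp (v : V) (a : Let n) : Rch σ 1 v (stp σ v a) := ⟨[a], by simp, rfl⟩

/-- A function which changes by at most `d` along the steps. -/
theorem le_add_wlk (f : V → ℕ) (d : ℕ) (hf : ∀ v a, f (stp σ v a) ≤ f v + d) (v : V)
    (w : List (Let n)) : f (wlk σ v w) ≤ f v + d * w.length := by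
  induction w generalizing v with
  | nil => simp [wlk]
  | cons a w ih =>
    have h1 := ih (stp σ v a)
    have h2 := hf v a
    simp only [wlk, List.length_cons, Nat.mul_add, Nat.mul_one]
    omega

theorem le_add_of_rch (f : V → ℕ) (d : ℕ) (hf : ∀ v a, f (stp σ v a) ≤ f v + d) {R : ℕ} {v v' : V}
    (h : Rch σ R v v') : f v' ≤ f v + d * R := by
  obtain ⟨w, hw, rfl⟩ := h
  exact (le_add_wlk σ f d hf v w).trans (by gcongr)

theorem cst_append (l : V → ℕ) (v : V) (u w : List (Let n)) :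
    cst σ l v (u ++ w) = cst σ l v u + cst σ l (wlk σ v u) w := by
  induction u generalizing v with
  | nil => simp [cst, wlk]
  | cons a u ih => simp only [List.cons_append, cst, wlk, ih, add_assoc]

theorem length_le_cst (l : V → ℕ) (hl : ∀ v, 1 ≤ l v) (v : V) (w : List (Let n)) :
    w.length ≤ cst σ l v w := by
  induction w generalizing v with
  | nil => simp
  | cons a w ih =>
    have h1 := ih (stp σ v a)
    have h2 := hl (stp σ v a)
    simp only [List.length_cons, cst]
    omega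

/-- Every edge of the chain of a walk starts (and ends) at a vertex of the walk. -/
theorem exists_take_of_chn_ne_zero (v : V) (w : List (Let n)) (e : V × Fin n)
    (h : chn σ v w e ≠ 0) :
    (∃ i, i ≤ w.length ∧ wlk σ v (w.take i) = e.1) ∧
      ∃ i, i ≤ w.length ∧ wlk σ v (w.take i) = σ e.2 e.1 := by
  classical
  induction w generalizing v with
  | nil => simp [chn] at h
  | cons a w ih =>
    rw [chn, Finsupp.add_apply] at h
    by_cases h1 : chn σ (stp σ v a) w e = 0
    · rw [h1, add_zero] at h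
      cases a with
      | inl i =>
        have he : (v, i) = e := by
          by_contra hc
          exact h (by simp [edg, hc])
        subst he
        exact ⟨⟨0, by simp, by simp [wlk]⟩, ⟨1, by simp, by simp [wlk, stp]⟩⟩
      | inr i =>
        have he : ((σ i).symm v, i) = e := by
          by_contra hc
          exact h (by simp [edg, hc])
        subst he
        exact ⟨⟨1, by simp, by simp [wlk, stp]⟩, ⟨0, by simp, by simp [wlk]⟩⟩
    · obtain ⟨⟨i, hi, he⟩, ⟨j, hj, hf⟩⟩ := ih _ h1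
      exact ⟨⟨i + 1, by simpa using hi, by simpa [wlk] using he⟩,
        ⟨j + 1, by simpa using hj, by simpa [wlk] using hf⟩⟩

theorem rch_of_chn_ne_zero (v : V) (w : List (Let n)) (e : V × Fin n) (h : chn σ v w e ≠ 0) :
    Rch σ w.length v e.1 := by
  obtain ⟨⟨i, hi, he⟩, -⟩ := exists_take_of_chn_ne_zero σ v w e h
  exact ⟨w.take i, by simp, he⟩

theorem lo_apply {r : ℕ} (f : V → ℕ) (t : ℕ) (c : V × Fin r →₀ ℤ) (s : V × Fin r) :
    lo f t c s = if f s.1 < t then c s else 0 := by
  classical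
  induction c using Finsupp.induction_linear with
  | zero => simp
  | add a b ha hb =>
    rw [map_add, Finsupp.add_apply, ha, hb, Finsupp.add_apply]
    split_ifs <;> simp
  | single s' x =>
    rw [lo, Finsupp.linearCombination_single]
    by_cases h : f s'.1 < t
    · rw [if_pos h]
      by_cases hs : s' = s
      · subst hs; simp [h]
      · simp [hs]
    · rw [if_neg h]
      by_cases hs : s' = s
      · subst hs; simp [h]
      · simp [hs]

theorem nrm_lo_le {r : ℕ} (f : V → ℕ) (t : ℕ) (c : V × Fin r →₀ ℤ) : nrm (lo f t c) ≤ nrm c := by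
  classical
  have hsub : (lo f t c).support ⊆ c.support := fun s hs => by
    rw [Finsupp.mem_support_iff, lo_apply] at hs
    rw [Finsupp.mem_support_iff]
    intro h0
    rw [h0] at hs
    simp at hs
  rw [nrm_eq_of_subset _ _ hsub, nrm, Finsupp.sum]
  refine Finset.sum_le_sum fun s _ => ?_
  rw [lo_apply]
  split_ifs <;> simp

theorem bd2_apply (rel : Fin m → List (Let n)) (c : V × Fin m →₀ ℤ) (e : V × Fin n) :
    bd2 σ rel c e = ∑ s ∈ c.support, c s * chn σ s.1 (rel s.2) e := by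
  rw [bd2, Finsupp.linearCombination_apply, Finsupp.sum, Finsupp.finsetSum_apply]
  simp

theorem sl_apply (rel : Fin m → List (Let n)) (f : V → ℕ) (t : ℕ) (c : V × Fin m →₀ ℤ)
    (e : V × Fin n) :
    sl σ rel f t c e = ∑ s ∈ c.support, c s * chn σ s.1 (rel s.2) e *
      ((if f e.1 < t then 1 else 0) - (if f s.1 < t then 1 else 0)) := by
  classical
  have hsub : (lo f t c).support ⊆ c.support := fun s hs => by
    rw [Finsupp.mem_support_iff, lo_apply] at hs
    rw [Finsupp.mem_support_iff]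
    intro h0
    rw [h0] at hs
    simp at hs
  have h2 : bd2 σ rel (lo f t c) e = ∑ s ∈ c.support, lo f t c s * chn σ s.1 (rel s.2) e := by
    rw [bd2_apply]
    refine Finset.sum_subset hsub fun s _ hs => ?_
    rw [Finsupp.notMem_support_iff.mp hs, zero_mul]
  rw [sl, LinearMap.sub_apply, Finsupp.sub_apply, LinearMap.comp_apply, LinearMap.comp_apply, h2,
    lo_apply, bd2_apply]
  by_cases h : f e.1 < t
  · rw [if_pos h, ← Finset.sum_sub_distrib]
    refine Finset.sum_congr rfl fun s _ => ?_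
    rw [lo_apply, if_pos h]
    split_ifs <;> ring
  · rw [if_neg h, zero_sub, ← Finset.sum_neg_distrib]
    refine Finset.sum_congr rfl fun s _ => ?_
    rw [lo_apply, if_neg h]
    split_ifs <;> ring

/-- The slices live on the edges of the cells which meet the level. -/
theorem exists_of_sl_ne_zero (rel : Fin m → List (Let n)) (ρ : ℕ) (hρ : ∀ j, (rel j).length ≤ ρ)
    (f : V → ℕ) (t : ℕ) (c : V × Fin m →₀ ℤ) (e : V × Fin n) (h : sl σ rel f t c e ≠ 0) :
    ∃ s, c s ≠ 0 ∧ Rch σ ρ s.1 e.1 ∧ ((f e.1 < t ∧ t ≤ f s.1) ∨ (f s.1 < t ∧ t ≤ f e.1)) := by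
  classical
  rw [sl_apply] at h
  obtain ⟨s, hs, hne⟩ := Finset.exists_ne_zero_of_sum_ne_zero h
  refine ⟨s, Finsupp.mem_support_iff.mp hs, ?_, ?_⟩
  · have h1 : chn σ s.1 (rel s.2) e ≠ 0 := by
      intro h0
      rw [h0] at hne
      simp at hne
    exact (rch_of_chn_ne_zero σ _ _ _ h1).mono (hρ _)
  · by_cases h1 : f e.1 < t <;> by_cases h2 : f s.1 < t
    · simp [h1, h2] at hne
    · exact Or.inl ⟨h1, not_lt.mp h2⟩
    · exact Or.inr ⟨h2, not_lt.mp h1⟩
    · simp [h1, h2] at hne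

end Walk

/-! ### The context -/

section Context

variable {G : Type} [Group G] {n m : ℕ} {gen : Fin n → G} {rel : Fin m → List (Let n)}
  {C ρ E : ℕ} {g : G} (X : Ctx gen rel C ρ E g)

include X in
theorem Ctx.E_pos : 1 ≤ E := by
  obtain ⟨w, k, hk, he, -⟩ := X.l_att 1
  have := X.tb 1 w k (by exact_mod_cast he)
  rcases Nat.eq_zero_or_pos E with h | h
  · rw [h, zero_mul, Int.natAbs_natCast] at this
    omega
  · exact h

/-- Every closed walk of the quotient comes from a loop. -/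
theorem Ctx.exists_loop (y : G) (w : List (Let n)) (h : wlk X.σ (X.π y) w = X.π y) :
    ∃ k : ℤ, y * ev gen w = g ^ k * y := by
  rw [X.toQD.wlk] at h
  exact (X.rel _ _).mp h.symm

theorem Ctx.wlk_loop (y : G) (w : List (Let n)) (k : ℤ) (h : y * ev gen w = g ^ k * y) :
    wlk X.σ (X.π y) w = X.π y := by
  rw [X.toQD.wlk, h]
  exact ((X.rel _ _).mpr ⟨k, rfl⟩).symm

theorem Ctx.wlk_rel (q : X.Q) (j : Fin m) : wlk X.σ q (rel j) = q := by
  obtain ⟨y, rfl⟩ := X.surj q
  exact X.wlk_loop y _ 0 (by rw [X.rel_one]; simp)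

theorem Ctx.bd1_bd2 (c : X.Q × Fin m →₀ ℤ) : bd1 X.σ (bd2 X.σ rel c) = 0 := by
  induction c using Finsupp.induction_linear with
  | zero => simp
  | add a b ha hb => rw [map_add, map_add, ha, hb, add_zero]
  | single s x => rw [bd2_single, map_smul, bd1_chn, X.wlk_rel, sub_self, smul_zero]

theorem Ctx.ω_bd2 (c : X.Q × Fin m →₀ ℤ) : X.ω (bd2 X.σ rel c) = 0 := by
  induction c using Finsupp.induction_linear with
  | zero => simp
  | add a b ha hb => rw [map_add, map_add, ha, hb, add_zero]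
  | single s x =>
    obtain ⟨y, hy⟩ := X.surj s.1
    rw [bd2_single, map_smul, ← hy, X.ω_loop y _ 0 (by rw [X.rel_one]; simp), smul_zero]

theorem Ctx.bd1_sl (f : X.Q → ℕ) (t : ℕ) (c : X.Q × Fin m →₀ ℤ) :
    bd1 X.σ (sl X.σ rel f t c) = bd1 X.σ (lo f t (bd2 X.σ rel c)) := by
  rw [sl, LinearMap.sub_apply, LinearMap.comp_apply, LinearMap.comp_apply, map_sub, X.bd1_bd2,
    sub_zero]

theorem Ctx.ω_sl (f : X.Q → ℕ) (t : ℕ) (c : X.Q × Fin m →₀ ℤ) :
    X.ω (sl X.σ rel f t c) = X.ω (lo f t (bd2 X.σ rel c)) := by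
  rw [sl, LinearMap.sub_apply, LinearMap.comp_apply, LinearMap.comp_apply, map_sub, X.ω_bd2,
    sub_zero]

/-- Rotation: every vertex of a loop with a nonzero winding number has `l ≤` the length. -/
theorem Ctx.l_vertex_le (y : G) (w : List (Let n)) (k : ℤ) (hk : k ≠ 0)
    (h : y * ev gen w = g ^ k * y) (i : ℕ) (hi : i ≤ w.length) :
    X.l (wlk X.σ (X.π y) (w.take i)) ≤ w.length := by
  rw [X.toQD.wlk]
  have h1 : ev gen w = ev gen (w.take i) * ev gen (w.drop i) := by
    rw [← ev_append, List.take_append_drop]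
  have h2 : y * ev gen (w.take i) * ev gen (w.drop i ++ w.take i) =
      g ^ k * (y * ev gen (w.take i)) := by
    rw [ev_append]
    calc y * ev gen (w.take i) * (ev gen (w.drop i) * ev gen (w.take i))
        = (y * (ev gen (w.take i) * ev gen (w.drop i))) * ev gen (w.take i) := by group
      _ = g ^ k * (y * ev gen (w.take i)) := by rw [← h1, h, mul_assoc]
  have h3 := X.l_le _ _ k hk h2
  rw [List.length_append, List.length_drop, List.length_take] at h3
  omega

end Context

end Pool.Agent.Lib.MP59b239.CT
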