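import Pool.Agent.Lib.MP_59b239_al.CT.Basic

/-!
# The conjugacy problem for two-dimensional automatic groups, translation lengths: the modules

THEOREM CT. Let `G` be automatic over `gen`, with an aspherical finite presentation `⟨gen | rel⟩`.
There are a `K` and a computable `F` such that for all `E` and all words `p, q` with
`|y⁻¹ g ^ k y| ≥ |k| / E` for all `y`, `k` (`g = ev p`; the translation number of `g` is at least
`1 / E`): `F (E, p, q)` tells whether `ev q` is conjugate to `g`, and the conjugator has a length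
`≤ K ^ (K ^ ((E + 1) * (|p| + |q| + 1)))`. There is no condition on the roots of the powers of `g`.

IDEA. As in CJ, `h = ev q = v⁻¹ g v`, `m = |v|` minimal, `Q = ⟨g⟩\G`, `c̄` the `2`-chain of `⟨g⟩\X` with
the boundary `γ_p - γ_q`, `nrm c̄ = O(ℓ m)`, `F` the distance to the centralizer of `g`. In CJ a slice
at a level of small norm `O(ℓ)` contains a short loop, but only with *some* winding number
`k ≠ 0`: without the condition on roots, `y' g^k y'⁻¹ = g^k` does not give `y' g = g y'`. We have to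
find a *connected* piece of the slice with winding number `1`: a word `u` with `y (ev u) = g y`.

Let `l(q)` be the least length of a loop at `q` with a nonzero winding number. By the co-area
inequality for the weights `l` there is a walk `W` in `Q` from `π 1` to `π v` of cost `∑ l = O(ℓ m)`
(COA: each cycle of winding number `≠ 0` has weight `∑ |z e| / l(e) ≥ 1`, WGT). Choose a dyadic scale
`A = 2^j`, `ℓ ≤ A ≤ exp(O(ℓ))`, such that the number `τ` of the positions of `W` with `l > A` (thick)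
satisfies `A τ ≤ m / (large const · 1)` (DYA). Let `K₀ = (E A)!`. At each thin position take the
shortest loop, with winding number `k ≤ E A`, and `μ = (K₀ / k) • loop`. Between consecutive thin
positions there is a `2`-chain `c_j` with `∂ c_j = μ_j - μ_{j+1}` (RCH); for a short gap (`lcl`) it has
a support of bounded diameter `≤ exp(O(ℓ))` near the position (LOC); for a long gap `d` its norm is
`≤ O(K₀ A d)` (LNG). The sum of the `c_j` is `K₀ c̄`. Let `z` be the slice of `c̄` at the level `t`. If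
the level `t` is good (the norm of `z` is `≤ L = O(ℓ)`, few positions are near the level `t`, the
slices of the long steps have total norm `< K₀ / E`), then `K₀ z` is, up to a chain of norm
`< K₀ / E`, the sum of the slices of the local steps near the level `t`; by integrality, `z` lives
near these positions. They come in clusters (CLU), one of which contains the change of sides; by
integrality again the part of `z` near this cluster has winding number `1` (RGN), and it is near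
one point, so we get a word `u` of length `≤ exp(O(ℓ))` with `y (ev u) = g y` (VER). Different levels
have different words (PG2). Most levels are good (TOT), so `m ≤ exp(exp(O(ℓ)))`.

FORM OF A MODULE: file `CT/XXX.lean`, imports this file, namespace `Pool.Agent.Lib.MP59b239.CT`,
`open Pool.Agent.Lib.MP59b239.CJ`, `theorem specXXX (hYYY : SpecYYY) ... : SpecXXX`; auxiliary lemmas
in the namespace `XXXM`. Basic facts: `CT/Basic.lean` and `CJ/Basic.lean`.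
-/

namespace Pool.Agent.Lib.MP59b239.CT

open Pool.Agent.Lib.MP59b239.CJ

section

open scoped Classical

/-! ### Constants -/

/-- The maximal gap of a local step. -/
def kD1 (E A : ℕ) : ℕ := 2 * E * A ^ 2

/-- The bound for the norm of a local filling. -/
def kC2 (C E A : ℕ) : ℕ := C * (2 * E * A ^ 2 + 2 * kD1 E A + 1) ^ 2

/-- The radius of the support of a local step. -/
def kR (C ρ E A : ℕ) : ℕ := A + kD1 E A + (2 * ρ + 1) * (kC2 C E A + 1)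

/-- The distance of the regions of different clusters. -/
def kS (C ρ E A : ℕ) : ℕ := 2 * kR C ρ E A + 2 * ρ + 2

/-- The gap of different clusters. -/
def kD2 (C ρ E A : ℕ) : ℕ := kS C ρ E A * (A + 2 * kS C ρ E A)

/-- A position is near a level if the difference is at most this. -/
def kR1 (C ρ E A : ℕ) : ℕ := kR C ρ E A + ρ + kD1 E A + A + 1

/-! ### Part 1: the context -/

/-- **LWT**: the least length of a loop with a nonzero winding number.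

Proof. `l q` is the least `N` such that there are `x, w, k` with `D.π x = q`, `k ≠ 0`,
`x * ev w = g ^ k * x`, `|w| = N` (`Nat.find`; exists: a word for `x⁻¹ g x`). If `D.π x = D.π x'` then
`x' = g ^ j * x` (`D.rel`) and `x' * ev w = g ^ k * x'`, so the minimum is attained at every `x` of the
fibre; `k > 0` by passing to `inv w`. `l q ≥ 1`: `w = []` gives `g ^ k = 1`. `l_stp`: for the loop `w`
at `x` the word `a.swap :: w ++ [a]` is a loop at `x * ev [a]` with the same `k` (`QD.stp`,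
`stp_rsh`). -/
def SpecLWT : Prop :=
  ∀ (G : Type) [Group G] (n : ℕ) (gen : Fin n → G) (g : G) (D : QD gen g),
    (∀ x : G, ∃ w : List (Let n), ev gen w = x) → (∀ k : ℤ, g ^ k = 1 → k = 0) →
    ∃ l : D.Q → ℕ, (∀ q, 1 ≤ l q) ∧
      (∀ (x : G) (w : List (Let n)) (k : ℤ), k ≠ 0 → x * ev gen w = g ^ k * x →
        l (D.π x) ≤ w.length) ∧
      (∀ x : G, ∃ (w : List (Let n)) (k : ℕ), 0 < k ∧ x * ev gen w = g ^ k * x ∧
        w.length = l (D.π x)) ∧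
      ∀ (q : D.Q) (a : Let n), l (stp D.σ q a) ≤ l q + 2

/-- **LVQ** (from `CJ.SpecLVL`): the distance to the centralizer as a function on the quotient.

Proof. `f` from LVL is constant on the fibres of `D.π` (`g ^ k` commutes with `g`), so `f = F ∘ D.π`
(`F q = f (Function.surjInv D.surj q)`). `F_stp`: `q = D.π x`, `QD.stp`, `stp_rsh`; for `inr i` use
`f (x * (gen i)⁻¹) ≤ f (x * (gen i)⁻¹ * gen i) + 1`. -/
def SpecLVQ : Prop :=
  ∀ (G : Type) [Group G] (n : ℕ) (gen : Fin n → G), Subgroup.closure (Set.range gen) = ⊤ →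
    ∀ (g : G) (D : QD gen g), ∃ F : D.Q → ℕ,
      (∀ (q : D.Q) (a : Let n), F (stp D.σ q a) ≤ F q + 1) ∧ F (D.π 1) = 0 ∧
      (∀ z x : G, z * g = g * z → F (D.π (z * x)) = F (D.π x)) ∧
      ∀ x : G, ∃ (z : G) (w : List (Let n)), z * g = g * z ∧ x = z * ev gen w ∧
        w.length = F (D.π x)

/-- **MKC** (from `CJ.SpecREL`, `CJ.SpecINJ`, `CJ.SpecQUO`, `CJ.SpecISO`, `CJ.SpecWND`, LWT, LVQ): the
context exists.

Proof. `C` from ISO, `ρ` the maximum (or the sum) of the lengths of the relators. `TransBound gen E g`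
with `y = 1`, `w = []` gives `g ^ k = 1 → k = 0`. `D` from QUO, `inj` from INJ, `rel_one` from REL,
`ω` from WND, `tb` is `TransBound`. `gens`: from `closure = ⊤` (`Subgroup.closure_induction`; see
`CJ/LVL.lean` or `CJ/TOR.lean`, or LVL: `x = z * ev w`… for `g := 1`). -/
def SpecMKC : Prop :=
  ∀ (G : Type) [Group G] (n m : ℕ) (gen : Fin n → G) (rel : Fin m → List (Let n)),
    Presents gen rel → Automatic gen → Aspherical gen rel → ∃ C ρ : ℕ, ∀ (E : ℕ) (g : G),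
      TransBound gen E g → Nonempty (Ctx gen rel C ρ E g)

/-- **WBD** (from `CJ.SpecFLW`): the winding number of a cycle is bounded by its norm.

Proof. FLW: `z = ∑ chn v w` over closed walks, `∑ |w| = nrm z`; `v = X.π y` (`X.surj`),
`y * ev w = g ^ k * y` (`X.exists_loop`), `ω (chn v w) = k` (`X.ω_loop`), `|k| ≤ E |w|` (`X.tb`). -/
def SpecWBD : Prop :=
  ∀ (G : Type) [Group G] (n m : ℕ) (gen : Fin n → G) (rel : Fin m → List (Let n)) (C ρ E : ℕ)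
    (g : G) (X : Ctx gen rel C ρ E g) (z : X.Q × Fin n →₀ ℤ), bd1 X.σ z = 0 →
      (X.ω z).natAbs ≤ E * nrm z

/-! ### Part 2: the walk `W` -/

/-- **PHI**: walks of minimal cost.

Proof. `φ v` is the least cost of a walk from `v₀` to `v`. `φ (stp v a) ≤ φ v + l (stp v a)`: append
`a` to a minimal walk (`cst_append`). `φ v₀ = 0`: the empty walk. Let `W` be a minimal walk to `v`;
`i ≤ i' ≤ |W|`, `w` a walk from the vertex `i` to the vertex `i'`. The walk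
`W.take i ++ w ++ W.drop i'` goes to `v`, so its cost is
`cst (W.take i) + cst w + cst (W.drop i') ≥ cst W = cst (W.take i) + cst (mid) + cst (W.drop i')`,
`mid = (W.take i').drop i`, and `cst mid ≥ |mid| = i' - i` (`length_le_cst`). -/
def SpecPHI : Prop :=
  ∀ (V : Type) (n : ℕ) (σ : Fin n → Equiv.Perm V) (l : V → ℕ) (v₀ : V), (∀ v, 1 ≤ l v) →
    (∀ v, ∃ w : List (Let n), wlk σ v₀ w = v) →
    ∃ φ : V → ℕ, (∀ (v : V) (a : Let n), φ (stp σ v a) ≤ φ v + l (stp σ v a)) ∧ φ v₀ = 0 ∧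
      ∀ v, ∃ W : List (Let n), wlk σ v₀ W = v ∧ cst σ l v₀ W = φ v ∧
        ∀ i i', i ≤ i' → i' ≤ W.length → ∀ w : List (Let n),
          wlk σ (wlk σ v₀ (W.take i)) w = wlk σ v₀ (W.take i') →
            i' ≤ i + cst σ l (wlk σ v₀ (W.take i)) w

/-- **WGT** (from `CJ.SpecFLW`): the weight of a cycle with a nonzero winding number.

Proof. FLW: closed walks `c = (v_c, w_c)` with `z = ∑_c chn v_c w_c`, `∑_c |w_c| = nrm z`. For each
edge `|z e| ≤ ∑_c |chn_c e|`, and `∑_e ∑_c |chn_c e| ≤ ∑_c |w_c| = nrm z = ∑_e |z e|`, so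
`|z e| = ∑_c |chn_c e|` for all `e` and `∑_e |chn_c e| = |w_c|` for all `c`. As `ω z ≠ 0` there is a
`c` with `ω (chn_c) ≠ 0`; `v_c = X.π y`, `y * ev w_c = g ^ k * y`, `k = ω (chn_c) ≠ 0`. If
`chn_c e ≠ 0` then `e.1` is a vertex of the walk (`exists_take_of_chn_ne_zero`), so
`X.l e.1 ≤ |w_c|` (`X.l_vertex_le`). So
`∑_e |z e| / l(e.1) ≥ ∑_e |chn_c e| / l(e.1) ≥ ∑_e |chn_c e| / |w_c| = 1`. -/
def SpecWGT : Prop :=
  ∀ (G : Type) [Group G] (n m : ℕ) (gen : Fin n → G) (rel : Fin m → List (Let n)) (C ρ E : ℕ)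
    (g : G) (X : Ctx gen rel C ρ E g) (z : X.Q × Fin n →₀ ℤ), bd1 X.σ z = 0 → X.ω z ≠ 0 →
      (1 : ℚ) ≤ ∑ e ∈ z.support, ((z e).natAbs : ℚ) / (X.l e.1 : ℚ)

/-- **CAR**: the co-area inequality.

Proof. By `sl_apply`, with `b_t(s, e) = 1` if `t` is between `f e.1` and `f s.1`
(`f e.1 < t ≤ f s.1` or `f s.1 < t ≤ f e.1`) and `0` otherwise,
`|sl_t c e| ≤ ∑ s ∈ c.support, |c s| * |chn s.1 (rel s.2) e| * b_t(s, e)`. Let `S` be the union of the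
supports of `chn s.1 (rel s.2)`, `s ∈ c.support`; it contains the support of `sl_t c`. For an
`e` with `chn s.1 (rel s.2) e ≠ 0` we have `Rch σ ρ s.1 e.1` (`rch_of_chn_ne_zero`), and
`∑_{t < T} b_t(s, e) ≤ |f e.1 - f s.1|`, so `(∑_t b_t(s, e)) * u e.1 ≤ B`. So the sum is
`≤ ∑ s ∈ c.support, |c s| * ∑ e ∈ S, |chn s.1 (rel s.2) e| * B ≤ ∑ s, |c s| * ρ * B`
(`nrm_chn_le`; `nrm_eq_of_subset`). (`B ≥ 0` by `Rch.refl` if `c ≠ 0`.) -/
def SpecCAR : Prop :=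
  ∀ (V : Type) (n m : ℕ) (σ : Fin n → Equiv.Perm V) (rel : Fin m → List (Let n)) (ρ : ℕ)
    (f : V → ℕ) (u : V → ℚ) (B : ℚ), (∀ j, (rel j).length ≤ ρ) → (∀ v, 0 ≤ u v) →
    (∀ v v' : V, Rch σ ρ v v' → ((f v : ℚ) - f v') * u v' ≤ B ∧ ((f v' : ℚ) - f v) * u v' ≤ B) →
    ∀ (c : V × Fin m →₀ ℤ) (T : ℕ),
      ∑ t ∈ Finset.range T, ∑ e ∈ (sl σ rel f t c).support,
        ((sl σ rel f t c e).natAbs : ℚ) * u e.1 ≤ ρ * B * nrm c

/-- **SUM** (from CAR): the slices for a function which changes by at most one along the edges.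

Proof. CAR for `u = 1`, `B = ρ` (`le_add_of_rch`, `Rch.symm`). -/
def SpecSUM : Prop :=
  ∀ (V : Type) (n m : ℕ) (σ : Fin n → Equiv.Perm V) (rel : Fin m → List (Let n)) (ρ : ℕ)
    (f : V → ℕ), (∀ j, (rel j).length ≤ ρ) → (∀ (v : V) (a : Let n), f (stp σ v a) ≤ f v + 1) →
    ∀ (c : V × Fin m →₀ ℤ) (T : ℕ), ∑ t ∈ Finset.range T, nrm (sl σ rel f t c) ≤ ρ ^ 2 * nrm c

/-- **COA** (from CAR, WGT): the growth of `φ` is bounded by the norm of a `2`-chain.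

Proof. CAR for `f = φ`, `u = 1 / l`, `B = ρ (2 ρ + 1)`: if `Rch σ ρ v v'`, by a walk `w`, then by
`φ (stp v a) ≤ φ v + l (stp v a)`, summed over the walk `w` and over its inverse,
`|φ v - φ v'| ≤ ρ * max l ≤ ρ * (l v' + 2 ρ) ≤ ρ (2 ρ + 1) l v'` (all vertices of the walk have
`l ≤ l v' + 2 ρ` by `X.l_stp`, `le_add_wlk`, `Rch.symm`; `l v' ≥ 1`). If `b ≤ a` nothing is to prove.
For `a < t ≤ b` we have `lo φ t (γ - γ') = γ` (`lo_apply`), so `z = sl X.σ rel φ t c` has `bd1 z = bd1 γ = 0`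
and `ω z = ω γ ≠ 0` (`X.bd1_sl`, `X.ω_sl`), and by WGT its weight is `≥ 1`. The sum over `t < b + 1` is
`≥ b - a`, and `≤ ρ * ρ (2 ρ + 1) * nrm c`. -/
def SpecCOA : Prop :=
  ∀ (G : Type) [Group G] (n m : ℕ) (gen : Fin n → G) (rel : Fin m → List (Let n)) (C ρ E : ℕ)
    (g : G) (X : Ctx gen rel C ρ E g) (φ : X.Q → ℕ),
    (∀ (v : X.Q) (a : Let n), φ (stp X.σ v a) ≤ φ v + X.l (stp X.σ v a)) →
    ∀ (c : X.Q × Fin m →₀ ℤ) (γ γ' : X.Q × Fin n →₀ ℤ) (a b : ℕ), bd2 X.σ rel c = γ - γ' →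
      bd1 X.σ γ = 0 → X.ω γ ≠ 0 → (∀ e, γ e ≠ 0 → φ e.1 ≤ a) → (∀ e, γ' e ≠ 0 → b ≤ φ e.1) →
      b ≤ a + ρ ^ 2 * (2 * ρ + 1) * nrm c

/-- **CBD** (from COA): the cost of the walk `W`.

Proof. COA for `γ = chn (π 1) p`, `γ' = chn (π (ev v)) q`, `a = |p| ^ 2`, `b = φ (π (ev v)) - |q| ^ 2`.
`bd1 γ = 0` (`bd1_chn`, `X.wlk_loop` for `1 * ev p = g ^ 1 * 1`), `ω γ = 1`. The vertices of the walk
`p` have `l ≤ |p|` (`X.l_vertex_le`), so `φ (wlk (π 1) (p.take i)) ≤ i * |p| ≤ |p| ^ 2` by induction on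
`i` (`wlk_append`, `List.take_succ`), and the edges of `γ` start at vertices of the walk
(`exists_take_of_chn_ne_zero`). Similarly (the vertices of the loop `q` at `ev v`, winding number
`1`, have `l ≤ |q|`) `φ (π (ev v)) ≤ φ (wlk (π (ev v)) (q.take i)) + (|q| - i) * |q|`, by going from
the vertex `i` to the end `π (ev v)` of the closed walk `q`. -/
def SpecCBD : Prop :=
  ∀ (G : Type) [Group G] (n m : ℕ) (gen : Fin n → G) (rel : Fin m → List (Let n)) (C ρ E : ℕ)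
    (g : G) (X : Ctx gen rel C ρ E g) (φ : X.Q → ℕ),
    (∀ (v : X.Q) (a : Let n), φ (stp X.σ v a) ≤ φ v + X.l (stp X.σ v a)) → φ (X.π 1) = 0 →
    ∀ p q v : List (Let n), ev gen p = g → g * ev gen v = ev gen v * ev gen q →
    ∀ c : X.Q × Fin m →₀ ℤ, bd2 X.σ rel c = chn X.σ (X.π 1) p - chn X.σ (X.π (ev gen v)) q →
      φ (X.π (ev gen v)) ≤ p.length ^ 2 + q.length ^ 2 + ρ ^ 2 * (2 * ρ + 1) * nrm c

/-- **DYA**: the dyadic pigeonhole principle.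

Proof. For each `i` the sum of the `2 ^ j` with `2 ^ j < a i` is `≤ 2 * a i`. So
`∑_{j0 ≤ j < j0 + J} 2 ^ j * #{i | 2 ^ j < a i} ≤ ∑_i 2 * a i ≤ 2 Λ`, and one of the `J` terms is at
most the average. -/
def SpecDYA : Prop :=
  ∀ (N : ℕ) (a : ℕ → ℕ) (Λ j0 J : ℕ), ∑ i ∈ Finset.range N, a i ≤ Λ → 0 < J →
    ∃ j, j0 ≤ j ∧ j < j0 + J ∧
      J * (2 ^ j * ((Finset.range N).filter fun i => 2 ^ j < a i).card) ≤ 2 * Λ

/-! ### Part 3: fillings between loops -/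

/-- **RCH**: the chain between multiples of two loops.

Proof. (1) For a closed word `u` (`ev u = 1`) and `x : G` there is a `2`-chain of the quotient with the
boundary `chn X.σ (X.π x) u` and norm `≤ C (|u| + 1) ^ 2`: `X.iso`, translated by `x`
(`ltr_bd2`, `ltr_chn`, `nrm_mp_le`) and projected (`QD.mp_bd2`, `QD.mp_chn`). (2) For naturals `s, s'`
with `k s = k' s'` the word `u = w^s V (inv w')^{s'} (inv V)` (`(List.replicate s w).flatten`) has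
`y * ev u = y`, so `ev u = 1`, the length `s |w| + s' |w'| + 2 |V|`, and
`chn (π y) u = s • chn (π y) w - s' • chn (π (y * ev V)) w'` (as in `CJ/ANN.lean`; the two loops are
closed walks of the quotient, the walks `V` cancel, `chn_inv`). (3) `s = N k'`, `s' = N k` gives a
chain `c_N`; `c₁` for `N = 1`; `c_N = N • c₁` by `X.inj`, so `N * nrm c₁ = nrm c_N`. (4)
`s = K₀ / k`, `s' = K₀ / k'` gives `r`. (5) `bd2 (k k' • r) = K₀ • (k' • λ - k • λ') = bd2 (K₀ • c₁)`, so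
`k k' • r = K₀ • c₁` (`X.inj`), which gives the last statement (`nrm_smul`) and the supports. -/
def SpecRCH : Prop :=
  ∀ (G : Type) [Group G] (n m : ℕ) (gen : Fin n → G) (rel : Fin m → List (Let n)) (C ρ E : ℕ)
    (g : G) (X : Ctx gen rel C ρ E g) (K₀ k k' : ℕ) (y : G) (V w w' : List (Let n)),
    0 < K₀ → 0 < k → 0 < k' → k ∣ K₀ → k' ∣ K₀ → y * ev gen w = g ^ k * y →
    (y * ev gen V) * ev gen w' = g ^ k' * (y * ev gen V) →
    ∃ r c₁ : X.Q × Fin m →₀ ℤ,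
      bd2 X.σ rel r = ((K₀ / k : ℕ) : ℤ) • chn X.σ (X.π y) w -
        ((K₀ / k' : ℕ) : ℤ) • chn X.σ (X.π (y * ev gen V)) w' ∧
      bd2 X.σ rel c₁ = (k' : ℤ) • chn X.σ (X.π y) w -
        (k : ℤ) • chn X.σ (X.π (y * ev gen V)) w' ∧
      (∀ s, r s ≠ 0 → c₁ s ≠ 0) ∧
      (∀ N : ℕ, 0 < N →
        N * nrm c₁ ≤ C * (N * (k' * w.length + k * w'.length) + 2 * V.length + 1) ^ 2) ∧
      k * k' * nrm r = K₀ * nrm c₁

/-- **LNG**: the norm of a long step (numbers: `a = |w|`, `b = |w'|`, `d = |V|`, `c = nrm c₁`,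
`x = nrm r`).

Proof. `S = k' a + k b` satisfies `1 ≤ S ≤ 2 E A ^ 2 < d` (`k' a ≤ E b a`, `k b ≤ E a b`; `a ≥ 1` as
`k ≥ 1`) and `S ≤ A k' + A k ≤ 2 A k k'`. Let `N = d / S ≥ 1`: `N S ≤ d` and `d < 2 N S` (as
`d < (N + 1) S`). So `N c ≤ C (3 d + 1) ^ 2 ≤ 16 C d ^ 2`, and
`N * (k k' x) = K₀ * (N c) ≤ 16 K₀ C d ^ 2`, while `d < 2 N S ≤ 4 A N k k'`; so
`d * x ≤ 4 A (N k k' x) ≤ 64 K₀ C A d ^ 2`, `x ≤ 64 K₀ C A d`. -/
def SpecLNG : Prop :=
  ∀ C E A k k' K₀ a b d x c : ℕ, 1 ≤ k → k ≤ E * a → a ≤ A → 1 ≤ k' → k' ≤ E * b → b ≤ A →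
    kD1 E A < d → (∀ N : ℕ, 0 < N → N * c ≤ C * (N * (k' * a + k * b) + 2 * d + 1) ^ 2) →
    k * k' * x = K₀ * c → x ≤ 64 * K₀ * C * A * d

/-- **LOC**: a `2`-chain of small norm lives near its boundary.

Proof. Let `c s₀ ≠ 0` and `M = nrm c`. For `i ≤ M` let `S_i` be the set of the `s ∈ c.support` with
`Rch σ (2 ρ i) s₀.1 s.1`. These are increasing, `s₀ ∈ S_0`, and `|c.support| ≤ M`, so there is an
`i < M` with `S_i = S_{i+1}` (or `i ≤ M`; otherwise `|S_i| ≥ i + 1`). Let `c' = c.filter (· ∈ S_i)`,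
`c' ≠ 0`, so `bd2 c' ≠ 0`, `(bd2 c') e ≠ 0` for some `e`. There is an `s ∈ S_i` with
`chn s.1 (rel s.2) e ≠ 0` (`bd2_apply`). If also `chn s'.1 (rel s'.2) e ≠ 0`, `s' ∈ c.support`, then
`Rch σ (2 ρ) s.1 s'.1` (both are within `ρ` of `e.1`, `rch_of_chn_ne_zero`, `Rch.symm`), so
`s' ∈ S_{i+1} = S_i`. So `(bd2 c) e = (bd2 c') e ≠ 0` and `Rch σ r₀ q₀ e.1`. Then
`q₀ → e.1 → s.1 → s₀.1`: `r₀ + ρ + 2 ρ M ≤ r₀ + (2 ρ + 1) (M + 1)`. -/
def SpecLOC : Prop :=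
  ∀ (V : Type) (n m : ℕ) (σ : Fin n → Equiv.Perm V) (rel : Fin m → List (Let n)) (ρ : ℕ),
    (∀ j, (rel j).length ≤ ρ) → (∀ c : V × Fin m →₀ ℤ, bd2 σ rel c = 0 → c = 0) →
    ∀ (c : V × Fin m →₀ ℤ) (q₀ : V) (r₀ : ℕ), (∀ e, bd2 σ rel c e ≠ 0 → Rch σ r₀ q₀ e.1) →
      ∀ s, c s ≠ 0 → Rch σ (r₀ + (2 * ρ + 1) * (nrm c + 1)) q₀ s.1

/-- **ONS** (from RCH, LNG, LOC): one step.

Proof. `k ≤ E |w| ≤ E A`, `k' ≤ E |w'| ≤ E A` by `X.tb`. RCH gives `r, c₁`. If `|V| ≤ kD1 E A` then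
`nrm c₁ ≤ kC2 C E A` (`N = 1`; `k' |w| + k |w'| ≤ 2 E A ^ 2`), the edges of `bd2 c₁` are within
`A + kD1 E A` of `π y` (`rch_of_chn_ne_zero`; `π (y * ev V)` is within `|V|` of `π y`, `QD.wlk`), and
LOC for `c₁` gives the support (`Rch.mono`). If `|V| > kD1 E A`, LNG. -/
def SpecONS : Prop :=
  ∀ (G : Type) [Group G] (n m : ℕ) (gen : Fin n → G) (rel : Fin m → List (Let n)) (C ρ E : ℕ)
    (g : G) (X : Ctx gen rel C ρ E g) (A K₀ k k' : ℕ) (y : G) (V w w' : List (Let n)),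
    0 < K₀ → (∀ i, 0 < i → i ≤ E * A → i ∣ K₀) → 0 < k → 0 < k' →
    w.length ≤ A → w'.length ≤ A → y * ev gen w = g ^ k * y →
    (y * ev gen V) * ev gen w' = g ^ k' * (y * ev gen V) →
    ∃ r : X.Q × Fin m →₀ ℤ,
      bd2 X.σ rel r = ((K₀ / k : ℕ) : ℤ) • chn X.σ (X.π y) w -
        ((K₀ / k' : ℕ) : ℤ) • chn X.σ (X.π (y * ev gen V)) w' ∧
      (V.length ≤ kD1 E A → ∀ s, r s ≠ 0 → Rch X.σ (kR C ρ E A) (X.π y) s.1) ∧
      (kD1 E A < V.length → nrm r ≤ 64 * K₀ * C * A * V.length)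

/-- **THN**: the enumeration of the thin positions.

Proof. Let `Z = {i ≤ N | P i}` (contains `0` and `N`), `r + 1` its number of elements and `idx` its
increasing enumeration (`Nat.nth P` for `j ≤ r`, or induction on `N`: statement for all `N' ≤ N` with
`P N'`, going from the last element of `Z` below `N` to `N`). The open intervals
`(idx j, idx (j+1))` are disjoint sets of indices with `¬ P`, so for `D ≥ 1` the sum of the gaps
`> D` (hence `≥ 2`, gap `≤ 2 (gap - 1)`) is at most `2 * #{¬ P}`, and their number is `≤ #{¬ P}`. -/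
def SpecTHN : Prop :=
  ∀ (N : ℕ) (P : ℕ → Prop), P 0 → P N →
    ∃ (r : ℕ) (idx : ℕ → ℕ), idx 0 = 0 ∧ idx r = N ∧ (∀ j < r, idx j < idx (j + 1)) ∧
      (∀ j ≤ r, P (idx j)) ∧ r ≤ N ∧ ∀ D, 1 ≤ D →
        (∑ j ∈ (Finset.range r).filter (fun j => ¬ idx (j + 1) ≤ idx j + D),
          (idx (j + 1) - idx j) ≤ 2 * ((Finset.range (N + 1)).filter fun i => ¬ P i).card) ∧
        ((Finset.range r).filter fun j => ¬ idx (j + 1) ≤ idx j + D).card ≤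
          ((Finset.range (N + 1)).filter fun i => ¬ P i).card

/-- A sequence of chains `μ 0, …, μ r` with the winding number `K₀` at the elements `y 0, …, y r`, and
`2`-chains `c j` with the boundary `μ j - μ (j + 1)`; the local ones live near `y j`. -/
structure Steps {G : Type} [Group G] {n m : ℕ} {gen : Fin n → G} {rel : Fin m → List (Let n)}
    {C ρ E : ℕ} {g : G} (X : Ctx gen rel C ρ E g) (A K₀ : ℕ) where
  r : ℕ
  y : ℕ → G
  idx : ℕ → ℕ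
  μ : ℕ → (X.Q × Fin n →₀ ℤ)
  c : ℕ → (X.Q × Fin m →₀ ℤ)
  lcl : ℕ → Prop
  K₀_pos : 0 < K₀
  idx_lt : ∀ j < r, idx j < idx (j + 1)
  bd1_μ : ∀ j ≤ r, bd1 X.σ (μ j) = 0
  ω_μ : ∀ j ≤ r, X.ω (μ j) = K₀
  supp_μ : ∀ j ≤ r, ∀ e, μ j e ≠ 0 →
    X.F e.1 ≤ X.F (X.π (y j)) + A ∧ X.F (X.π (y j)) ≤ X.F e.1 + A
  bd2_c : ∀ j < r, bd2 X.σ rel (c j) = μ j - μ (j + 1)
  lcl_idx : ∀ j < r, lcl j → idx (j + 1) ≤ idx j + kD1 E A
  lcl_supp : ∀ j < r, lcl j → ∀ s, c j s ≠ 0 → Rch X.σ (kR C ρ E A) (X.π (y j)) s.1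
  rch : ∀ i j, i ≤ j → j ≤ r → Rch X.σ (idx j - idx i) (X.π (y i)) (X.π (y j))
  sep : ∀ i j, i ≤ r → j ≤ r → Rch X.σ (kS C ρ E A) (X.π (y i)) (X.π (y j)) →
    idx j ≤ idx i + kD2 C ρ E A

/-- **PTH** (from ONS, THN): the steps along the walk `W`.

Proof. Write `y_i = ev (W.take i)`; `P i` iff `l (π y_i) ≤ A`. `P 0`: `p` is a loop at `1` with
winding number `1`, so `l (π 1) ≤ |p| ≤ A`. `P |W|`: `q` is a loop at `ev W`, `k = 1`:
`π (ev W) = π (ev v)`, so `ev v = g ^ i * ev W`, hence `ev W * ev q = g * ev W`. THN (`N = |W|`) gives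
`r`, `idx`; `r ≥ 1` as `W ≠ []`. `y j := y_{idx j}`. Choose loops `w_j, k_j` (`0 < k_j`, `|w_j| ≤ A`,
`y j * ev w_j = g ^ k_j * y j`) from `X.l_att`, for `j = 0`: `p, 1`, for `j = r`: `q, 1`.
`K₀ = (E * A)!` is divisible by all `0 < i ≤ E * A` (`Nat.dvd_factorial`). `μ j := (K₀ / k_j) • chn (π (y j)) w_j`:
`bd1 = 0` (`X.wlk_loop`), `ω = (K₀ / k_j) k_j = K₀`, the edges are within `A` of `π (y j)`
(`rch_of_chn_ne_zero`, `le_add_of_rch`, `Rch.symm`, `X.F_stp`). `c j` from ONS with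
`V = (W.take (idx (j+1))).drop (idx j)`, `|V| = idx (j+1) - idx j`, `y j * ev V = y (j+1)`;
`lcl j := idx (j+1) ≤ idx j + kD1 E A`. `rch`: the subword. `sep`: let `idx i < idx j` and `w` the
walk, `|w| ≤ kS`; all vertices of `w` have `l ≤ l (π (y i)) + 2 |w| ≤ A + 2 kS` (`X.l_stp`), so
`cst w ≤ kS (A + 2 kS) = kD2`, and the minimality gives the claim. The sums: ONS, THN for
`D = kD1 E A ≥ 1` (`X.E_pos`), `64 K₀ C A * (2 τ)`. -/
def SpecPTH : Prop :=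
  ∀ (G : Type) [Group G] (n m : ℕ) (gen : Fin n → G) (rel : Fin m → List (Let n)) (C ρ E : ℕ)
    (g : G) (X : Ctx gen rel C ρ E g) (A τ : ℕ) (p q v W : List (Let n)),
    ev gen p = g → g * ev gen v = ev gen v * ev gen q → X.π (ev gen W) = X.π (ev gen v) →
    1 ≤ A → p.length ≤ A → q.length ≤ A → 0 < W.length →
    (∀ i i', i ≤ i' → i' ≤ W.length → ∀ w : List (Let n),
      wlk X.σ (X.π (ev gen (W.take i))) w = X.π (ev gen (W.take i')) →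
        i' ≤ i + cst X.σ X.l (X.π (ev gen (W.take i))) w) →
    ((Finset.range (W.length + 1)).filter fun i =>
      ¬ X.l (X.π (ev gen (W.take i))) ≤ A).card ≤ τ →
    ∃ S : Steps X A (E * A).factorial, S.r ≤ W.length ∧
      X.π (S.y 0) = X.π 1 ∧ X.π (S.y S.r) = X.π (ev gen v) ∧
      S.μ 0 = ((E * A).factorial : ℤ) • chn X.σ (X.π 1) p ∧
      S.μ S.r = ((E * A).factorial : ℤ) • chn X.σ (X.π (ev gen v)) q ∧
      (∑ j ∈ (Finset.range S.r).filter (fun j => ¬ S.lcl j), nrm (S.c j) ≤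
        128 * (E * A).factorial * C * A * τ) ∧
      ((Finset.range S.r).filter fun j => ¬ S.lcl j).card ≤ τ

/-! ### Part 4: the levels -/

/-- **RGN**: the part of a cycle in a separated region.

Proof. (1) If `z e ≠ 0` then `U e.1` or `U' e.1`: otherwise `S e = T e = 0`, so
`K₀ * |z e| ≤ |L₁ e| + |L₂ e| ≤ nrm L₁ + nrm L₂ < K₀` (`E ≥ 1`), so `z e = 0`. (2) `U` and `U'` are
disjoint (`w = []`). Let `z' = z.filter (U ·.1)`, `z'' = z - z'`. If `bd1 z' ≠ 0`, at a vertex `x`,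
then `x` is an end (`e.1` or `σ e.2 e.1`) of an edge `e` with `U e.1`; `bd1 z'' = -bd1 z'`, so `x` is
also an end of an edge `e'` with `z'' e' ≠ 0`, so `U' e'.1`: there is a walk of length `≤ 2` from
`e.1` to `e'.1`, contradiction. So `bd1 z' = 0`. (3) Let `δ = K₀ • z' - (S + L₁)`, a cycle. For
`U e.1`: `T e = 0` and `δ e = K₀ z e - S e - L₁ e = L₂ e`; otherwise `z' e = 0`, `S e = 0` and
`δ e = -L₁ e`. So `nrm δ ≤ nrm L₁ + nrm L₂` and `|ω δ| ≤ E * nrm δ < K₀`; but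
`ω δ = K₀ (ω z' - 1)`, so `ω z' = 1`. -/
def SpecRGN : Prop :=
  ∀ (V : Type) (n : ℕ) (σ : Fin n → Equiv.Perm V) (ω : (V × Fin n →₀ ℤ) →ₗ[ℤ] ℤ) (E K₀ : ℕ),
    1 ≤ E → (∀ z, bd1 σ z = 0 → (ω z).natAbs ≤ E * nrm z) →
    ∀ (U U' : V → Prop) (z S T L₁ L₂ : V × Fin n →₀ ℤ),
      (K₀ : ℤ) • z = S + T + L₁ + L₂ → bd1 σ z = 0 →
      (∀ e, S e ≠ 0 → U e.1) → (∀ e, T e ≠ 0 → U' e.1) →
      (∀ x x', U x → U' x' → ¬ Rch σ 2 x x') →
      bd1 σ (S + L₁) = 0 → ω (S + L₁) = K₀ → E * (nrm L₁ + nrm L₂) < K₀ →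
      ∃ z' : V × Fin n →₀ ℤ, bd1 σ z' = 0 ∧ ω z' = 1 ∧ nrm z' ≤ nrm z ∧ ∀ e, z' e ≠ 0 → U e.1

/-- **CLU**: the cluster which contains the change of sides.

Proof. `nl j := lcl j ∧ near j` (for `j < r`). `cut j := clear j` and
`idx i + D₂ < idx i'` for all `i < j ≤ i' < r` with `nl i`, `nl i'`. `0` and `r` are cuts. Let `b` be
the least `b ≤ r` with `cut b ∧ s b`; `b ≠ 0`. Let `a` be the greatest cut `< b`; `¬ s a` by the
minimality of `b`. Let `X = {j | a ≤ j < b, nl j}`. `X ≠ ∅`: otherwise all steps `a ≤ j < b` keep `s`.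
Let `i < i'` be consecutive elements of `X` and suppose `idx i + D₂ < idx i'`. Then `i + 1 < i'`
(`lcl i`), so `i + 1 ∉ X`, so `¬ near (i+1)`, or `near (i+1)` and `¬ lcl (i+1)`; in both cases
`clear (i+1)`; and `i + 1` is a cut (`nl i₁`, `i₁ ≤ i`, `nl i₂`, `i₂ ≥ i + 1` imply `i₂ ≥ i'`, so
`idx i₁ + D₂ ≤ idx i + D₂ < idx i' ≤ idx i₂`, as `idx` is increasing on `[0, r]`), and `a < i + 1 < b`:
contradiction. So `idx i' ≤ idx i + D₂` for consecutive elements, and with `j₀ = min X` we get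
`idx j₀ ≤ idx j ≤ idx j₀ + |X| D₂` for `j ∈ X`, `|X| ≤ ν`. The last property: `a` and `b` are cuts. -/
def SpecCLU : Prop :=
  ∀ (r D₂ ν : ℕ) (idx : ℕ → ℕ) (lcl near clear s : ℕ → Prop),
    (∀ j < r, idx j < idx (j + 1)) → (∀ j ≤ r, ¬ near j → clear j) → ¬ near 0 → ¬ near r →
    ¬ s 0 → s r → (∀ j < r, lcl j → ¬ near j → (s j ↔ s (j + 1))) →
    (∀ j < r, ¬ lcl j → clear j ∧ clear (j + 1) ∧ (s j ↔ s (j + 1))) →
    (∀ j < r, lcl j → idx (j + 1) ≤ idx j + D₂) →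
    ((Finset.range r).filter near).card ≤ ν →
    ∃ a b, a ≤ b ∧ b ≤ r ∧ clear a ∧ clear b ∧ ¬ s a ∧ s b ∧
      ∃ j₀, a ≤ j₀ ∧ j₀ < b ∧ lcl j₀ ∧ near j₀ ∧
        (∀ j, a ≤ j → j < b → lcl j → near j →
          idx j ≤ idx j₀ + ν * D₂ ∧ idx j₀ ≤ idx j + ν * D₂) ∧
        ∀ j i, a ≤ j → j < b → lcl j → near j → i < r → lcl i → near i → ¬ (a ≤ i ∧ i < b) →
          idx i + D₂ < idx j ∨ idx j + D₂ < idx i

/-- **LVT** (from WBD, RGN, CLU): a good level.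

Proof. Write `F_j = F (π (y j))`, `sl_j = sl X.σ rel X.F t (S.c j)`; `near j := F_j ≤ t + kR1 ∧
t ≤ F_j + kR1`, `clear j := F_j + A < t ∨ t + A < F_j`, `s j := t < F_j`.
(1) If `clear j` (`j ≤ r`) then `lo X.F t (μ j)` is `μ j` if `¬ s j`, and `0` if `s j` (`supp_μ`,
`lo_apply`). (2) For `a ≤ b ≤ r`: `∑_{a ≤ j < b} sl_j = sl (∑ c j)` and `bd2 (∑_{a ≤ j < b} c j) =
μ a - μ b`, so if `clear a`, `clear b`: `bd1 (∑ sl_j) = bd1 (lo (μ a)) - bd1 (lo (μ b)) = 0`, `ω (∑ sl_j)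
= ω (lo (μ a)) - ω (lo (μ b))` (`X.bd1_sl`, `X.ω_sl`). (3) `¬ lcl j`: `j`, `j+1` are clear (hypothesis),
so `sl_j` is a cycle with `|ω sl_j| ≤ E nrm sl_j < K₀` (WBD), so by (1), (2) `s j ↔ s (j+1)`. (4) `lcl j`
and `sl_j e ≠ 0` imply `near j` and `Rch (kR + ρ) (π (y j)) e.1` (`exists_of_sl_ne_zero`, `lcl_supp`; `t`
is between `F e.1` and `F s.1`, both within `kR + ρ` of `F_j`, `le_add_of_rch`). (5) `lcl j`, `¬ near j`:
`|F_{j+1} - F_j| ≤ kD1 < kR1` (`rch`, `lcl_idx`), so `s j ↔ s (j+1)`. CLU with `D₂ = kD2 C ρ E A`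
(`≥ kD1`) gives `a, b, j₀`. (6) RGN with `U x := ∃ j, a ≤ j < b, lcl j, near j, Rch (kR + ρ) (π (y j)) x`,
`U' x := ∃ j < r, ¬ (a ≤ j < b), lcl j, near j, Rch (kR + ρ) (π (y j)) x`, `S = ∑_{[a,b), lcl} sl_j`,
`T = ∑_{not [a,b), lcl} sl_j`, `L₁ = ∑_{[a,b), ¬ lcl} sl_j`, `L₂ = ∑_{not [a,b), ¬ lcl} sl_j`. If `U x`,
`U' x'`, `Rch 2 x x'`, then `Rch kS (π (y j)) (π (y i))`, and `sep` contradicts CLU. The edges of `z'`
are within `ν kD2 + (kR + ρ)` of `π (y j₀)` (`rch`, `Rch.symm`). -/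
def SpecLVT : Prop :=
  ∀ (G : Type) [Group G] (n m : ℕ) (gen : Fin n → G) (rel : Fin m → List (Let n)) (C ρ E : ℕ)
    (g : G) (X : Ctx gen rel C ρ E g) (A K₀ : ℕ) (S : Steps X A K₀) (t ν : ℕ)
    (z : X.Q × Fin n →₀ ℤ),
    X.F (X.π (S.y 0)) + kR1 C ρ E A < t → t + kR1 C ρ E A < X.F (X.π (S.y S.r)) →
    (K₀ : ℤ) • z = ∑ j ∈ Finset.range S.r, sl X.σ rel X.F t (S.c j) → bd1 X.σ z = 0 →
    E * (∑ j ∈ (Finset.range S.r).filter (fun j => ¬ S.lcl j),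
      nrm (sl X.σ rel X.F t (S.c j))) < K₀ →
    (∀ j < S.r, ¬ S.lcl j →
      (X.F (X.π (S.y j)) + A < t ∨ t + A < X.F (X.π (S.y j))) ∧
      (X.F (X.π (S.y (j + 1))) + A < t ∨ t + A < X.F (X.π (S.y (j + 1))))) →
    ((Finset.range S.r).filter fun j => X.F (X.π (S.y j)) ≤ t + kR1 C ρ E A ∧
      t ≤ X.F (X.π (S.y j)) + kR1 C ρ E A).card ≤ ν →
    ∃ j₀, j₀ < S.r ∧ X.F (X.π (S.y j₀)) ≤ t + kR1 C ρ E A ∧
      t ≤ X.F (X.π (S.y j₀)) + kR1 C ρ E A ∧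
      ∃ z' : X.Q × Fin n →₀ ℤ, bd1 X.σ z' = 0 ∧ X.ω z' = 1 ∧ nrm z' ≤ nrm z ∧
        ∀ e, z' e ≠ 0 → Rch X.σ (ν * kD2 C ρ E A + kR C ρ E A + ρ) (X.π (S.y j₀)) e.1

/-- **VER** (from `CJ.SpecFLW`): a word from a cycle.

Proof. FLW: closed walks `(v_i, w_i)`, `w_i ≠ []`, `z = ∑ chn v_i w_i`, `∑ |w_i| = nrm z`; `v_i` is an
end of an edge of `z`, so `Rch σ (R + 1) (π y₀) v_i`, by a walk `s_i`. `u` is the product of the
`s_i ++ w_i ++ inv s_i`: its length is `≤ ∑ (2 (R + 1) + |w_i|) ≤ nrm z * (2 R + 3)`. The word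
`s_i ++ w_i ++ inv s_i` is a closed walk at `π y₀`, `y₀ * ev (…) = g ^ k_i * y₀` (`X.exists_loop`) with
`k_i = ω (chn (π y₀) (s_i ++ w_i ++ inv s_i)) = ω (chn v_i w_i)` (`X.ω_loop`, `chn_append`,
`chn_inv`), so `y₀ * ev u = g ^ (∑ k_i) * y₀`, `∑ k_i = ω z = 1` (induction on the list). -/
def SpecVER : Prop :=
  ∀ (G : Type) [Group G] (n m : ℕ) (gen : Fin n → G) (rel : Fin m → List (Let n)) (C ρ E : ℕ)
    (g : G) (X : Ctx gen rel C ρ E g) (y₀ : G) (R : ℕ) (z : X.Q × Fin n →₀ ℤ),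
    bd1 X.σ z = 0 → X.ω z = 1 → (∀ e, z e ≠ 0 → Rch X.σ R (X.π y₀) e.1) →
    ∃ u : List (Let n), u.length ≤ nrm z * (2 * R + 3) ∧ y₀ * ev gen u = g * y₀

/-- **PG2**: the number of levels with a short word.

Proof. Choose `y_t, u_t` for `t ∈ T`. If `u_t = u_{t'}` then `y_t⁻¹ g y_t = y_{t'}⁻¹ g y_{t'}`, so
`y_{t'} y_t⁻¹` commutes with `g` and `F (π y_{t'}) = F (π y_t)` (`X.F_com`), so the fibre of
`t ↦ u_t` is contained in an interval `[F - R, F + R]` with at most `2 R + 1` elements. There are at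
most `(2 n + 1) ^ V` words of length `≤ V` (see `CJ/PIG.lean`);
`Finset.card_le_mul_card_image` or `Finset.card_le_mul_card_image_of_maps_to`. -/
def SpecPG2 : Prop :=
  ∀ (G : Type) [Group G] (n m : ℕ) (gen : Fin n → G) (rel : Fin m → List (Let n)) (C ρ E : ℕ)
    (g : G) (X : Ctx gen rel C ρ E g) (V R : ℕ) (T : Finset ℕ),
    (∀ t ∈ T, ∃ (y : G) (u : List (Let n)), u.length ≤ V ∧ y * ev gen u = g * y ∧
      X.F (X.π y) ≤ t + R ∧ t ≤ X.F (X.π y) + R) →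
    T.card ≤ (2 * R + 1) * (2 * n + 1) ^ V

/-- **TOT** (from SUM, LVT, VER, PG2): the number of levels.

Proof. Write `κ = kR1 C ρ E A`. Let `T` be the set of the `t` with `a + κ < t`, `t + κ < b`; we may
assume `b > a + 2 κ + 1`, `|T| = b - a - 2 κ - 1`. For `t ∈ T` let `z_t = sl X.σ rel X.F t c̄`. By
`X.inj`, `∑_{j < r} c j = K₀ • c̄` (both have the boundary `μ 0 - μ r = K₀ (γ - γ')`, telescoping,
`bd2_c`), so `K₀ • z_t = ∑_j sl_t (c j)`. `lo X.F t (γ - γ') = γ`, so `bd1 z_t = bd1 γ = 0`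
(`X.bd1_sl`). Let `Ba` be the number of the `t ∈ T` with `nrm z_t > L`: `(L + 1) Ba ≤ ∑_t nrm z_t ≤
ρ ^ 2 nrm c̄` (SUM). Let `Bd` be the number of the `t ∈ T` with more than `ν` near `j < r`:
`(ν + 1) Bd ≤ ∑_t #{j < r near t} ≤ (2 κ + 1) r`. The `t ∈ T` with
`K₀ ≤ E ∑_{¬ lcl} nrm (sl_t (c j))`: their number `Bb` has
`K₀ Bb ≤ E ∑_{¬ lcl} ∑_t nrm (sl_t (c j)) ≤ E ρ ^ 2 128 K₀ C A τ`, so `Bb ≤ 128 E C ρ ^ 2 A τ`. The
`t ∈ T` such that an end `j` or `j + 1` of a step `¬ lcl j` is not clear (`|F - t| ≤ A`): at most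
`2 τ (2 A + 1) ≤ 6 A τ`. For the other `t ∈ T` LVT applies and gives `y = S.y j₀` and `z'`, and VER
(`R = ν kD2 + kR + ρ`) a word `u`, `|u| ≤ nrm z' (2 R + 3) ≤ L (2 R + 3)`; by PG2 their number is
`≤ (2 κ + 1) (2 n + 1) ^ (L (2 R + 3))`. -/
def SpecTOT : Prop :=
  ∀ (G : Type) [Group G] (n m : ℕ) (gen : Fin n → G) (rel : Fin m → List (Let n)) (C ρ E : ℕ)
    (g : G) (X : Ctx gen rel C ρ E g) (A K₀ : ℕ) (S : Steps X A K₀)
    (c : X.Q × Fin m →₀ ℤ) (γ γ' : X.Q × Fin n →₀ ℤ) (a b τ : ℕ),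
    1 ≤ A → S.μ 0 = (K₀ : ℤ) • γ → S.μ S.r = (K₀ : ℤ) • γ' → bd2 X.σ rel c = γ - γ' →
    bd1 X.σ γ = 0 → (∀ e, γ e ≠ 0 → X.F e.1 ≤ a) → (∀ e, γ' e ≠ 0 → b ≤ X.F e.1) →
    X.F (X.π (S.y 0)) ≤ a → b ≤ X.F (X.π (S.y S.r)) →
    (∑ j ∈ (Finset.range S.r).filter (fun j => ¬ S.lcl j), nrm (S.c j) ≤
      128 * K₀ * C * A * τ) →
    ((Finset.range S.r).filter fun j => ¬ S.lcl j).card ≤ τ →
    ∀ L ν : ℕ, ∃ Ba Bd : ℕ, (L + 1) * Ba ≤ ρ ^ 2 * nrm c ∧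
      (ν + 1) * Bd ≤ (2 * kR1 C ρ E A + 1) * S.r ∧
      b ≤ a + 2 * kR1 C ρ E A + 1 + Ba + (128 * E * C * ρ ^ 2 + 6) * (A * τ) + Bd +
        (2 * kR1 C ρ E A + 1) *
          (2 * n + 1) ^ (L * (2 * (ν * kD2 C ρ E A + kR C ρ E A + ρ) + 3))

/-- The inequalities for the minimal length `m` of a conjugator, `l = |p| + |q|`. -/
def NumHyp (C ρ E n l m : ℕ) : Prop :=
  ∃ c : ℕ, (∀ N : ℕ, 0 < N → N * c ≤ C * (N * l + 2 * m + 1) ^ 2) ∧
    ∀ j0 J : ℕ, l ≤ 2 ^ j0 → 0 < J → ∃ j τ : ℕ, j0 ≤ j ∧ j < j0 + J ∧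
      J * (2 ^ j * τ) ≤ 2 * ((l + 1) ^ 2 + ρ ^ 2 * (2 * ρ + 1) * c) ∧
      ∀ L ν : ℕ, ∃ Ba Bd : ℕ, (L + 1) * Ba ≤ ρ ^ 2 * c ∧
        (ν + 1) * Bd ≤
          (2 * kR1 C ρ E (2 ^ j) + 1) * ((l + 1) ^ 2 + ρ ^ 2 * (2 * ρ + 1) * c) ∧
        m ≤ l + 2 * kR1 C ρ E (2 ^ j) + 1 + Ba + (128 * E * C * ρ ^ 2 + 6) * (2 ^ j * τ) + Bd +
          (2 * kR1 C ρ E (2 ^ j) + 1) * (2 * n + 1) ^
            (L * (2 * (ν * kD2 C ρ E (2 ^ j) + kR C ρ E (2 ^ j) + ρ) + 3))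

/-- **BNT** (from `CJ.SpecANN`, PHI, CBD, DYA, PTH, TOT): the inequalities hold.

Proof. `c` from ANN (`X.inj`, `X.iso`), `nrm c` satisfies the first inequality (`N |p| + N |q| = N l`).
PHI for `X.Q`, `X.l`, `v₀ = π 1` (connected: `X.surj`, `X.gens`, `QD.wlk`) gives `φ` and `W` with
`π (ev W) = wlk (π 1) W = π (ev v)`, `cst W = φ (π (ev v)) ≤ Λ₀ := |p| ^ 2 + |q| ^ 2 + ρ ^ 2 (2 ρ + 1) nrm c`
(CBD). `|W| ≤ cst W` (`length_le_cst`), and `W ≠ []` because `F (π (ev v)) = |v| > 0 = F (π 1)`.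
`l (π 1) ≤ |p|` (`X.l_le`), so the sum of `l (π (ev (W.take i)))` over `i ≤ |W|` is `≤ |p| + Λ₀ ≤
(l + 1) ^ 2 + ρ ^ 2 (2 ρ + 1) nrm c`. DYA gives `j`, `A = 2 ^ j ≥ l`, and `τ` the number of the
`i ≤ |W|` with `l (…) > A`. PTH gives `S`, TOT with `γ = chn (π 1) p`, `γ' = chn (π (ev v)) q`, `a = |p|`,
`b = |v| - |q|` (edges of `γ` have `F ≤ |p|`, those of `γ'` have `F ≥ F (π (ev v)) - |q|`:
`rch_of_chn_ne_zero`, `le_add_of_rch`) gives the rest, as `S.r ≤ |W| ≤ Λ₀`. -/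
def SpecBNT : Prop :=
  ∀ (G : Type) [Group G] (n m : ℕ) (gen : Fin n → G) (rel : Fin m → List (Let n)) (C ρ E : ℕ)
    (g : G) (X : Ctx gen rel C ρ E g) (p q v : List (Let n)),
    ev gen p = g → g * ev gen v = ev gen v * ev gen q → v.length = X.F (X.π (ev gen v)) →
    0 < v.length → NumHyp C ρ E n (p.length + q.length) v.length

/-! ### Part 5: numbers -/

/-- `1 + 16 C ρ² (2 ρ + 1)`. -/
def kB (C ρ : ℕ) : ℕ := 1 + 16 * C * ρ ^ 2 * (2 * ρ + 1)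

/-- The number of dyadic scales. -/
def kJ (C ρ E l : ℕ) : ℕ := 16 * (128 * E * C * ρ ^ 2 + 6) * kB C ρ * (l + 1)

/-- The bound for the norm of a slice. -/
def kL (C ρ l : ℕ) : ℕ := 128 * C * ρ ^ 2 * (l + 1)

/-- The bound for the number of near positions. -/
def kN (C ρ E A l : ℕ) : ℕ := 8 * (2 * kR1 C ρ E A + 1) * kB C ρ * (l + 1)

/-- The bound for the length of the words. -/
def kV (C ρ E A l : ℕ) : ℕ :=
  kL C ρ l * (2 * (kN C ρ E A l * kD2 C ρ E A + kR C ρ E A + ρ) + 3)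

/-- The final bound. -/
def kM (C ρ E n A l : ℕ) : ℕ :=
  2 * l + 4 * kR1 C ρ E A + 4 + 2 * (2 * kR1 C ρ E A + 1) * (2 * n + 1) ^ kV C ρ E A l

/-- **NMC**: the norm of the annulus.

Proof. As in `CJ/NUM.lean`: `M = m + 1`, `lam = l + 1 ≤ M`; `N = M / lam + 1` has
`M ≤ N lam ≤ 2 M`, so `N l + 2 m + 1 ≤ 4 M`, `N c ≤ 16 C M ^ 2`, and `M c ≤ N lam c ≤ 16 C lam M ^ 2`. -/
def SpecNMC : Prop :=
  ∀ C l m c : ℕ, (∀ N : ℕ, 0 < N → N * c ≤ C * (N * l + 2 * m + 1) ^ 2) → l ≤ m →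
    c ≤ 16 * C * (l + 1) * (m + 1)

/-- **NMA** (from NMC): the choice of the parameters.

Proof. `lam = l + 1`, `M = m + 1`; `c ≤ 16 C lam M`, so
`Λ := (l + 1) ^ 2 + ρ ^ 2 (2 ρ + 1) c ≤ kB C ρ * lam * M`. Take `j0 = l + 1` (`l ≤ 2 ^ (l + 1)`),
`J = kJ C ρ E l`, `L = kL C ρ l`, `ν = kN C ρ E (2 ^ j) l`. With `c₁ = 128 E C ρ ^ 2 + 6`:
`16 c₁ kB lam (2^j τ) ≤ 2 kB lam M`, so `8 c₁ (2^j τ) ≤ M`. `(L + 1) Ba ≤ 16 C ρ ^ 2 lam M` and
`L = 8 * (16 C ρ ^ 2 lam)`, so `8 Ba ≤ M` (if `16 C ρ ^ 2 lam = 0` then `Ba = 0`).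
`(ν + 1) Bd ≤ (2 kR1 + 1) kB lam M`, `ν = 8 (2 kR1 + 1) kB lam`, so `8 Bd ≤ M`. So
`8 m ≤ 8 (l + 2 kR1 + 1) + 3 (m + 1) + 8 (2 kR1 + 1) (2 n + 1) ^ kV`, and
`5 m ≤ 8 l + 16 kR1 + 11 + 8 (2 kR1 + 1) (2 n + 1) ^ kV ≤ 5 kM`. -/
def SpecNMA : Prop :=
  ∀ C ρ E n l m : ℕ, NumHyp C ρ E n l m → l ≤ m →
    ∃ j, j ≤ l + 1 + kJ C ρ E l ∧ m ≤ kM C ρ E n (2 ^ j) l

/-- **NMP**: polynomial bounds.

Proof. All constants are polynomials in `E, A, l` with natural coefficients (for fixed `C, ρ`):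
with `E, l + 1, A ≤ Y`, `1 ≤ Y`: `kD1 ≤ 2 Y ^ 3`, `kC2 ≤ 49 C Y ^ 6`, `kR ≤ a₁ Y ^ 6`,
`kS ≤ a₂ Y ^ 6`, `kD2 ≤ a₃ Y ^ 12`, `kR1 ≤ a₄ Y ^ 6`, `kN ≤ a₅ Y ^ 7`, `kL ≤ a₆ Y`,
`kV ≤ a₇ Y ^ 20`. (Or: prove a lemma that functions with a bound `a * Y ^ b` are closed under sums,
products and powers, and apply it.) -/
def SpecNMP : Prop :=
  ∀ C ρ : ℕ, ∃ a b : ℕ, ∀ E A l Y : ℕ, E ≤ Y → A ≤ Y → l + 1 ≤ Y → 1 ≤ Y →
    kR1 C ρ E A ≤ a * Y ^ b ∧ kV C ρ E A l ≤ a * Y ^ b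

/-- **NMB** (from NMP): the growth.

Proof. Let `x = (E + 1) * (l + 1)`, `c' = 1 + 16 * (128 C ρ ^ 2 + 6) * kB C ρ`; `j ≤ c' x`,
`Y = 2 ^ (c' x)` is `≥ E, l + 1, 2 ^ j, 1`. So `kR1, kV ≤ a * 2 ^ (b c' x) ≤ K₁ ^ x`,
`K₁ = (a + 1) * 2 ^ (b c')` (`x ≥ 1`), and `kM ≤ 2 x + 4 K₁ ^ x + 4 + 2 (2 K₁ ^ x + 1)
(2 n + 1) ^ (K₁ ^ x) ≤ K ^ (K ^ x)` for `K` large, e.g. `K ≥ K₁ + 2`, `K ≥ 2 ^ 8 * (2 n + 1)`: with
`Z = K₁ ^ x`, `2 x, Z ≤ 2 ^ (Z)`… (`x ≤ 2 ^ x ≤ K ^ x`). -/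
def SpecNMB : Prop :=
  ∀ C ρ n : ℕ, ∃ K : ℕ, ∀ E l j : ℕ, j ≤ l + 1 + kJ C ρ E l →
    kM C ρ E n (2 ^ j) l ≤ K ^ (K ^ ((E + 1) * (l + 1)))

/-- **NMT** (from NMA, NMB): the numerical conclusion.

Proof. If `m < l` then `m ≤ kM C ρ E n (2 ^ 0) l`, NMB with `j = 0`; otherwise NMA, NMB. -/
def SpecNMT : Prop :=
  ∀ C ρ n : ℕ, ∃ K : ℕ, ∀ E l m : ℕ, NumHyp C ρ E n l m →
    m ≤ K ^ (K ^ ((E + 1) * (l + 1)))

/-- **CBT** (from MKC, BNT, NMT): the length of a conjugator.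

Proof. `C, ρ` from MKC, `K` from NMT for `C, ρ, n`. `g = ev p`, `ev q = x⁻¹ g x` (`isConj_iff`), `X` from
MKC. `X.F_att`: `x = z * ev v`, `z g = g z`, `|v| = F (π x) = F (π (ev v))` (`X.F_com`), and
`(ev v)⁻¹ g (ev v) = x⁻¹ z g z⁻¹ x = ev q`. If `|v| = 0` trivial; otherwise BNT, NMT. -/
def SpecCBT : Prop :=
  ∀ (G : Type) [Group G] (n m : ℕ) (gen : Fin n → G) (rel : Fin m → List (Let n)),
    Presents gen rel → Automatic gen → Aspherical gen rel →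
    ∃ K : ℕ, ∀ (E : ℕ) (p q : List (Let n)), TransBound gen E (ev gen p) →
      IsConj (ev gen p) (ev gen q) →
      ∃ v : List (Let n), v.length ≤ K ^ (K ^ ((E + 1) * (p.length + q.length + 1))) ∧
        (ev gen v)⁻¹ * ev gen p * ev gen v = ev gen q

/-- **PR2** (from `CJ.SpecWRD`, `CJ.SpecANY`): bounded search.

Proof. As `CJ/PRM.lean` (uses `CJ/CPC.lean`: `CPCM.primrec_bound`, `CPCM.primrec_word`), with the
bound `K ^ (K ^ ((E + 1) * (|p| + |q| + 1)))`, a primitive recursive function of `(E, p, q)`. -/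
def SpecPR2 : Prop :=
  ∀ (G : Type) [Group G] (n : ℕ) (gen : Fin n → G),
    (ComputablePred fun w : List (Let n) => ev gen w = 1) → ∀ K : ℕ,
    ∃ F : ℕ × List (Let n) × List (Let n) → Bool, Computable F ∧ ∀ E p q, F (E, p, q) = true ↔
      ∃ v : List (Let n), v.length ≤ K ^ (K ^ ((E + 1) * (p.length + q.length + 1))) ∧
        (ev gen v)⁻¹ * ev gen p * ev gen v = ev gen q

/-- The theorem. -/
def SpecMAIN2 : Prop :=
  ∀ (G : Type) [Group G] (n m : ℕ) (gen : Fin n → G) (rel : Fin m → List (Let n)),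
    Presents gen rel → Automatic gen → Aspherical gen rel →
    ∃ (K : ℕ) (F : ℕ × List (Let n) × List (Let n) → Bool), Computable F ∧
      ∀ (E : ℕ) (p q : List (Let n)), TransBound gen E (ev gen p) →
        (F (E, p, q) = true ↔ IsConj (ev gen p) (ev gen q)) ∧
        (IsConj (ev gen p) (ev gen q) →
          ∃ v : List (Let n), v.length ≤ K ^ (K ^ ((E + 1) * (p.length + q.length + 1))) ∧
            (ev gen v)⁻¹ * ev gen p * ev gen v = ev gen q)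

theorem specMAIN2 (hCBT : SpecCBT) (hWPC : SpecWPC) (hPR2 : SpecPR2) : SpecMAIN2 := by
  intro G _ n m gen rel hp ha has
  obtain ⟨K, hK⟩ := hCBT G n m gen rel hp ha has
  obtain ⟨F, hF, hFe⟩ := hPR2 G n gen (hWPC G n gen ha) K
  refine ⟨K, F, hF, fun E p q ht => ⟨?_, hK E p q ht⟩⟩
  rw [hFe]
  constructor
  · rintro ⟨v, -, hv⟩
    rw [isConj_iff]
    exact ⟨(ev gen v)⁻¹, by rw [inv_inv]; exact hv⟩
  · exact hK E p q ht

end

end Pool.Agent.Lib.MP59b239.CT
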